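import Mathlib
import Pool.Agent.R485.Mult.Moment

/-!
# An inequality of Erdős–Turán–Koksma type
-/

set_option autoImplicit false

namespace Pool.Agent.V5helper26.PM.ETK

open Finset Filter Topology
open Pool.Agent.H469R2.NK (e norm_e e_add e_zero conj_e)
open Pool.Agent.W565.MOFS (P2 cos_sum saw_upper saw_lower re_e norm_e_sub_one)
open Pool.Agent.R485.Mult (e_sum indicator_eq)

/-- truncation of the Fourier series of `P2` -/
lemma p2_trunc (t : ℝ) (K : ℕ) (hK : 1 ≤ K) :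
    |Real.pi ^ 2 * P2 (Int.fract t) - ∑ h ∈ Icc 1 K, 1 / (h : ℝ) ^ 2 * Real.cos (2 * Real.pi * h * t)| ≤
      1 / (K : ℝ) := by
  set f : ℕ → ℝ := fun n => 1 / (n : ℝ) ^ 2 * Real.cos (2 * Real.pi * n * t) with hf
  have hs : HasSum f (Real.pi ^ 2 * P2 (Int.fract t)) := cos_sum t
  have hK0 : (0 : ℝ) < K := by exact_mod_cast hK
  have hf0 : f 0 = 0 := by simp [f]
  have hfle : ∀ n : ℕ, |f n| ≤ ((n : ℝ) ^ 2)⁻¹ := by
    intro n
    simp only [hf]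
    rw [abs_mul, abs_of_nonneg (by positivity : (0 : ℝ) ≤ 1 / (n : ℝ) ^ 2), one_div]
    exact mul_le_of_le_one_right (by positivity) (Real.abs_cos_le_one _)
  have hlim : Tendsto (fun M : ℕ => ∑ n ∈ range M, f n - ∑ h ∈ Icc 1 K, f h) atTop
      (𝓝 (Real.pi ^ 2 * P2 (Int.fract t) - ∑ h ∈ Icc 1 K, f h)) :=
    (hs.tendsto_sum_nat).sub_const _
  refine le_of_tendsto hlim.abs ?_
  filter_upwards [eventually_ge_atTop (K + 1)] with M hM
  have h1 : range M = insert 0 (Icc 1 K ∪ Ioc K (M - 1)) := by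
    ext n
    rw [mem_range, mem_insert, mem_union, mem_Icc, mem_Ioc]
    omega
  have h0 : 0 ∉ Icc 1 K ∪ Ioc K (M - 1) := by
    rw [mem_union, mem_Icc, mem_Ioc]; omega
  have hdisj : Disjoint (Icc 1 K) (Ioc K (M - 1)) := by
    rw [disjoint_left]
    intro a ha ha'
    rw [mem_Icc] at ha
    rw [mem_Ioc] at ha'
    omega
  rw [h1, sum_insert h0, hf0, zero_add, sum_union hdisj, add_sub_cancel_left]
  refine (abs_sum_le_sum_abs _ _).trans ((sum_le_sum fun n _ => hfle n).trans ?_)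
  have h5 := sum_Ioc_inv_sq_le_sub (α := ℝ) (k := K) (n := M - 1) (by omega) (by omega)
  have h6 : (0 : ℝ) ≤ (((M - 1 : ℕ) : ℝ))⁻¹ := by positivity
  rw [one_div]
  linarith

/-- the coefficients of the majorant -/
noncomputable def ca (ℓ δ : ℝ) (h : ℕ) : ℂ :=
  (1 / (2 * δ * Real.pi ^ 2 * (h : ℝ) ^ 2) : ℝ) *
    (e (-(h * ℓ)) * (1 - e (-(h * δ))) + (1 - e (h * δ)))

lemma norm_ca (ℓ δ : ℝ) (hδ : 0 < δ) (h : ℕ) (hh : 1 ≤ h) : ‖ca ℓ δ h‖ ≤ 1 / h := by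
  have hh0 : (0 : ℝ) < h := by exact_mod_cast hh
  have hpi := Real.pi_pos
  have hpi3 := Real.pi_gt_three
  unfold ca
  rw [norm_mul, Complex.norm_real, Real.norm_eq_abs, abs_of_pos (by positivity)]
  have h1 : ‖e (-(h * ℓ)) * (1 - e (-(h * δ))) + (1 - e (h * δ))‖ ≤ 4 * Real.pi * (h * δ) := by
    refine (norm_add_le _ _).trans ?_
    rw [norm_mul, norm_e, one_mul, norm_sub_rev, norm_sub_rev (1 : ℂ)]
    have h2 := norm_e_sub_one (-(h * δ))
    have h3 := norm_e_sub_one (h * δ)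
    rw [abs_neg, abs_of_pos (by positivity)] at h2
    rw [abs_of_pos (by positivity)] at h3
    linarith
  calc (1 / (2 * δ * Real.pi ^ 2 * (h : ℝ) ^ 2)) * ‖e (-(h * ℓ)) * (1 - e (-(h * δ))) + (1 - e (h * δ))‖ ≤
        (1 / (2 * δ * Real.pi ^ 2 * (h : ℝ) ^ 2)) * (4 * Real.pi * (h * δ)) := by gcongr
    _ = (2 / Real.pi) * (1 / h) := by field_simp; ring
    _ ≤ 1 * (1 / h) := by
        gcongr
        rw [div_le_one hpi]
        linarith
    _ = _ := one_mul _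

lemma re_ca (ℓ δ t : ℝ) (h : ℕ) : (ca ℓ δ h * e (h * t)).re =
    1 / (2 * δ * Real.pi ^ 2) * (1 / (h : ℝ) ^ 2 * (Real.cos (2 * Real.pi * h * (t - ℓ)) -
      Real.cos (2 * Real.pi * h * (t - ℓ - δ)) - Real.cos (2 * Real.pi * h * (t + δ)) +
      Real.cos (2 * Real.pi * h * t))) := by
  have h1 : ca ℓ δ h * e (h * t) = (1 / (2 * δ * Real.pi ^ 2 * (h : ℝ) ^ 2) : ℝ) *
      (e (h * (t - ℓ)) - e (h * (t - ℓ - δ)) + (e (h * t) - e (h * (t + δ)))) := by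
    unfold ca
    have a1 : e (h * (t - ℓ)) = e (-(h * ℓ)) * e (h * t) := by rw [← e_add]; congr 1; ring
    have a2 : e (h * (t - ℓ - δ)) = e (-(h * ℓ)) * e (-(h * δ)) * e (h * t) := by
      rw [← e_add, ← e_add]; congr 1; ring
    have a3 : e (h * (t + δ)) = e (h * δ) * e (h * t) := by rw [← e_add]; congr 1; ring
    rw [a1, a2, a3]
    ring
  rw [h1, Complex.re_ofReal_mul, Complex.add_re, Complex.sub_re, Complex.sub_re, re_e, re_e, re_e, re_e]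
  have e1 : ∀ y : ℝ, 2 * Real.pi * (h * y) = 2 * Real.pi * h * y := fun y => by ring
  rw [e1, e1, e1, e1]
  have e2 : 1 / (2 * δ * Real.pi ^ 2 * (h : ℝ) ^ 2) = 1 / (2 * δ * Real.pi ^ 2) * (1 / (h : ℝ) ^ 2) := by
    rw [one_div_mul_one_div]
  rw [e2]
  ring

/-- the coefficients of the majorant, as a function on the integers -/
noncomputable def cc (ℓ δ ρ : ℝ) (h : ℤ) : ℂ :=
  if h = 0 then ((ℓ + ρ : ℝ) : ℂ) else
    if 0 < h then ca ℓ δ h.natAbs / 2 else (starRingEnd ℂ) (ca ℓ δ h.natAbs) / 2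

lemma norm_cc (ℓ δ ρ : ℝ) (hδ : 0 < δ) (h : ℤ) (hh : h ≠ 0) : ‖cc ℓ δ ρ h‖ ≤ 1 / (h.natAbs : ℝ) := by
  have h1 : 1 ≤ h.natAbs := Int.natAbs_pos.2 hh
  have h2 := norm_ca ℓ δ hδ h.natAbs h1
  have h3 : ‖ca ℓ δ h.natAbs‖ / 2 ≤ 1 / (h.natAbs : ℝ) := by
    have := norm_nonneg (ca ℓ δ h.natAbs)
    linarith
  unfold cc
  rw [if_neg hh]
  split_ifs
  · rw [norm_div, Complex.norm_ofNat]; exact h3
  · rw [norm_div, Complex.norm_ofNat, Complex.norm_conj]; exact h3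

lemma Icc_split (K : ℕ) (F : ℤ → ℂ) :
    ∑ h ∈ Icc (-(K : ℤ)) K, F h = F 0 + ∑ h ∈ Icc 1 K, (F (h : ℤ) + F (-(h : ℤ))) := by
  induction K with
  | zero => simp
  | succ K ih =>
    have h1 : Icc (-((K + 1 : ℕ) : ℤ)) ((K + 1 : ℕ) : ℤ) =
        insert (-((K + 1 : ℕ) : ℤ)) (insert ((K + 1 : ℕ) : ℤ) (Icc (-(K : ℤ)) K)) := by
      ext h
      rw [mem_Icc, mem_insert, mem_insert, mem_Icc]
      push_cast
      omega
    have h2 : ((K + 1 : ℕ) : ℤ) ∉ Icc (-(K : ℤ)) K := by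
      rw [mem_Icc]; push_cast; omega
    have h3 : -((K + 1 : ℕ) : ℤ) ∉ insert ((K + 1 : ℕ) : ℤ) (Icc (-(K : ℤ)) K) := by
      rw [mem_insert, mem_Icc]; push_cast; omega
    rw [h1, sum_insert h3, sum_insert h2, ih, sum_Icc_succ_top (by omega)]
    ring

/-- **A trigonometric majorant of the indicator function of an arc.** -/
lemma major (ℓ : ℝ) (hℓ0 : 0 ≤ ℓ) (hℓ1 : ℓ ≤ 1) (K : ℕ) (hK : 1 ≤ K) (t : ℝ) :
    ∃ r : ℝ, (r : ℂ) = ∑ h ∈ Icc (-(K : ℤ)) K, cc ℓ (1 / √K) (2 / √K) h * e (h * t) ∧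
      (if Int.fract t < ℓ then (1 : ℝ) else 0) ≤ r := by
  have hKR : (1 : ℝ) ≤ K := by exact_mod_cast hK
  have hK0 : (0 : ℝ) < K := by linarith
  have hsq : (1 : ℝ) ≤ √K := Real.one_le_sqrt.2 hKR
  have hsq0 : 0 < √(K : ℝ) := by linarith
  have hsq2 : √(K : ℝ) * √K = K := Real.mul_self_sqrt hK0.le
  set δ : ℝ := 1 / √K with hδ
  have hδ0 : 0 < δ := by positivity
  have hδ1 : δ ≤ 1 := by rw [hδ, div_le_one hsq0]; exact hsq
  have hpi := Real.pi_pos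
  have hpi3 := Real.pi_gt_three
  set r : ℝ := ℓ + 2 / √K + ∑ h ∈ Icc 1 K, (ca ℓ δ h * e (h * t)).re with hr
  refine ⟨r, ?_, ?_⟩
  · rw [Icc_split, hr]
    push_cast
    have e0 : cc ℓ δ (2 / √K) 0 * e (((0 : ℤ) : ℝ) * t) = (ℓ : ℂ) + 2 / ((√(K : ℝ) : ℝ) : ℂ) := by
      unfold cc
      rw [if_pos rfl, Int.cast_zero, zero_mul, e_zero]
      push_cast
      ring
    have e0' : cc ℓ δ (2 / √K) 0 * e ((0 : ℝ) * t) = (ℓ : ℂ) + 2 / ((√(K : ℝ) : ℝ) : ℂ) := by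
      rw [← e0, Int.cast_zero]
    rw [e0']
    congr 1
    refine sum_congr rfl fun h hh => ?_
    rw [mem_Icc] at hh
    have hh0 : ((h : ℤ)) ≠ 0 := by omega
    have e1 : cc ℓ δ (2 / √K) (h : ℤ) = ca ℓ δ h / 2 := by
      unfold cc
      rw [if_neg hh0, if_pos (by omega), Int.natAbs_natCast]
    have e2 : cc ℓ δ (2 / √K) (-(h : ℤ)) = (starRingEnd ℂ) (ca ℓ δ h) / 2 := by
      unfold cc
      rw [if_neg (by omega), if_neg (by omega), Int.natAbs_neg, Int.natAbs_natCast]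
    rw [e1, e2]
    have e3 : e (-(h : ℝ) * t) = (starRingEnd ℂ) (e (h * t)) := by
      rw [conj_e]; congr 1; ring
    rw [e3]
    have e4 := Complex.re_eq_add_conj (ca ℓ δ h * e (h * t))
    rw [e4, map_mul]
    ring
  · -- the indicator function
    have hind : (if Int.fract t < ℓ then (1 : ℝ) else 0) - ℓ =
        (Int.fract (t - ℓ) - 1 / 2) - (Int.fract t - 1 / 2) := by
      rcases hℓ0.eq_or_lt with h0 | h0
      · rw [← h0, if_neg (not_lt.2 (Int.fract_nonneg t))]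
        simp only [sub_zero, sub_self]
      · have h1 := indicator_eq t 0 ℓ le_rfl h0 hℓ1
        rw [sub_zero, sub_zero] at h1
        rw [← h1]
        congr 1
        by_cases h2 : Int.fract t < ℓ
        · rw [if_pos h2, if_pos ⟨Int.fract_nonneg t, h2⟩]
        · rw [if_neg h2, if_neg (fun h3 => h2 h3.2)]
    have hu := saw_upper (t - ℓ) δ hδ0 hδ1
    have hl := saw_lower t δ hδ0 hδ1
    have t1 := (abs_le.1 (p2_trunc (t - ℓ) K hK)).2
    have t2 := (abs_le.1 (p2_trunc (t - ℓ - δ) K hK)).1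
    have t3 := (abs_le.1 (p2_trunc (t + δ) K hK)).1
    have t4 := (abs_le.1 (p2_trunc t K hK)).2
    set p1 := P2 (Int.fract (t - ℓ))
    set p2 := P2 (Int.fract (t - ℓ - δ))
    set p3 := P2 (Int.fract (t + δ))
    set p4 := P2 (Int.fract t)
    set s1 := ∑ h ∈ Icc 1 K, 1 / (h : ℝ) ^ 2 * Real.cos (2 * Real.pi * h * (t - ℓ))
    set s2 := ∑ h ∈ Icc 1 K, 1 / (h : ℝ) ^ 2 * Real.cos (2 * Real.pi * h * (t - ℓ - δ))
    set s3 := ∑ h ∈ Icc 1 K, 1 / (h : ℝ) ^ 2 * Real.cos (2 * Real.pi * h * (t + δ))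
    set s4 := ∑ h ∈ Icc 1 K, 1 / (h : ℝ) ^ 2 * Real.cos (2 * Real.pi * h * t)
    have hsum : ∑ h ∈ Icc 1 K, (ca ℓ δ h * e (h * t)).re =
        1 / (2 * δ * Real.pi ^ 2) * (s1 - s2 - s3 + s4) := by
      rw [sum_congr rfl fun h _ => re_ca ℓ δ t h, ← mul_sum, ← sum_sub_distrib, ← sum_sub_distrib,
        ← sum_add_distrib]
      congr 1
      exact sum_congr rfl fun h _ => by ring
    have hmain : Real.pi ^ 2 * (p1 - p2 - p3 + p4) ≤ (s1 - s2 - s3 + s4) + 4 / K := by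
      have : (4 : ℝ) / K = 1 / K + 1 / K + 1 / K + 1 / K := by ring
      rw [this]
      linarith
    have h5 : (p1 - p2) / (2 * δ) - (p3 - p4) / (2 * δ) ≤
        1 / (2 * δ * Real.pi ^ 2) * (s1 - s2 - s3 + s4) + 1 / (2 * δ * Real.pi ^ 2) * (4 / K) := by
      have e1 : (p1 - p2) / (2 * δ) - (p3 - p4) / (2 * δ) =
          1 / (2 * δ * Real.pi ^ 2) * (Real.pi ^ 2 * (p1 - p2 - p3 + p4)) := by
        field_simp
        ring
      rw [e1, ← mul_add]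
      exact mul_le_mul_of_nonneg_left hmain (by positivity)
    have h6 : 1 / (2 * δ * Real.pi ^ 2) * (4 / K) ≤ 1 / √K := by
      have e1 : 1 / (2 * δ * Real.pi ^ 2) * (4 / K) = 2 / Real.pi ^ 2 * (1 / √K) := by
        rw [hδ]
        field_simp
        rw [sq, hsq2]
        ring
      rw [e1]
      apply mul_le_of_le_one_left (by positivity)
      rw [div_le_one (by positivity)]
      nlinarith
    have h7 : (2 : ℝ) / √K = 1 / √K + δ := by rw [hδ]; ring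
    rw [hr, hsum, h7]
    linarith

lemma sum_norm_cc (ℓ : ℝ) (hℓ0 : 0 ≤ ℓ) (hℓ1 : ℓ ≤ 1) (K : ℕ) (hK : 1 ≤ K) :
    ∑ h ∈ Icc (-(K : ℤ)) K, ‖cc ℓ (1 / √K) (2 / √K) h‖ ≤ 5 + 2 * Real.log K := by
  have hKR : (1 : ℝ) ≤ K := by exact_mod_cast hK
  have hsq : (1 : ℝ) ≤ √K := Real.one_le_sqrt.2 hKR
  have hsq0 : 0 < √(K : ℝ) := by linarith
  have h1 := Icc_split K (fun h => ((‖cc ℓ (1 / √K) (2 / √K) h‖ : ℝ) : ℂ))
  have h2 : ∑ h ∈ Icc (-(K : ℤ)) K, ‖cc ℓ (1 / √K) (2 / √K) h‖ = ‖cc ℓ (1 / √K) (2 / √K) 0‖ +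
      ∑ h ∈ Icc 1 K, (‖cc ℓ (1 / √K) (2 / √K) (h : ℤ)‖ + ‖cc ℓ (1 / √K) (2 / √K) (-(h : ℤ))‖) := by
    exact_mod_cast h1
  rw [h2]
  have h3 : ‖cc ℓ (1 / √K) (2 / √K) 0‖ ≤ 3 := by
    unfold cc
    rw [if_pos rfl, Complex.norm_real, Real.norm_eq_abs, abs_of_nonneg (by positivity)]
    have : (2 : ℝ) / √K ≤ 2 := div_le_self (by norm_num) hsq
    linarith
  have hharm : ∑ h ∈ Icc 1 K, (1 : ℝ) / h ≤ 1 + Real.log K := by
    have h3 := harmonic_le_one_add_log K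
    rw [harmonic_eq_sum_Icc] at h3
    push_cast at h3
    refine le_trans (le_of_eq ?_) h3
    exact sum_congr rfl fun h _ => by rw [one_div]
  have h4 : ∑ h ∈ Icc 1 K, (‖cc ℓ (1 / √K) (2 / √K) (h : ℤ)‖ + ‖cc ℓ (1 / √K) (2 / √K) (-(h : ℤ))‖) ≤
      ∑ h ∈ Icc 1 K, 2 * ((1 : ℝ) / h) := by
    refine sum_le_sum fun h hh => ?_
    rw [mem_Icc] at hh
    have a1 := norm_cc ℓ (1 / √K) (2 / √K) (by positivity) (h : ℤ) (by omega)
    have a2 := norm_cc ℓ (1 / √K) (2 / √K) (by positivity) (-(h : ℤ)) (by omega)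
    rw [Int.natAbs_natCast] at a1
    rw [Int.natAbs_neg, Int.natAbs_natCast] at a2
    linarith
  rw [← mul_sum] at h4
  linarith

open Classical in
/-- the upper bound -/
theorem upper {ι : Type} (S : Finset ι) (k : ℕ) (t : ι → Fin k → ℝ) (K : ℕ) (hK : 1 ≤ K) (T : ℝ)
    (hT0 : 0 ≤ T)
    (hT : ∀ g : Fin k → ℤ, g ≠ 0 → (∀ j, |g j| ≤ K) → ‖∑ n ∈ S, e (∑ j, (g j : ℝ) * t n j)‖ ≤ T)
    (a ℓ : Fin k → ℝ) (hℓ0 : ∀ j, 0 ≤ ℓ j) (hℓ1 : ∀ j, ℓ j ≤ 1) :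
    ((S.filter (fun n => ∀ j, Int.fract (t n j - a j) < ℓ j)).card : ℝ) ≤
      S.card * ∏ j, (ℓ j + 2 / √K) + (5 + 2 * Real.log K) ^ k * T := by
  have hKR : (1 : ℝ) ≤ K := by exact_mod_cast hK
  have hsq : (1 : ℝ) ≤ √K := Real.one_le_sqrt.2 hKR
  have hsq0 : 0 < √(K : ℝ) := by linarith
  have hlogK : 0 ≤ Real.log K := Real.log_nonneg hKR
  choose r hr1 hr2 using fun (n : ι) (j : Fin k) => major (ℓ j) (hℓ0 j) (hℓ1 j) K hK (t n j - a j)
  -- the count is at most the sum of the products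
  have h1 : ((S.filter (fun n => ∀ j, Int.fract (t n j - a j) < ℓ j)).card : ℝ) ≤
      ∑ n ∈ S, ∏ j, r n j := by
    rw [card_filter]
    push_cast
    refine sum_le_sum fun n _ => ?_
    have h2 : (if ∀ j, Int.fract (t n j - a j) < ℓ j then (1 : ℝ) else 0) =
        ∏ j, (if Int.fract (t n j - a j) < ℓ j then (1 : ℝ) else 0) := by
      by_cases hall : ∀ j, Int.fract (t n j - a j) < ℓ j
      · rw [if_pos hall, prod_congr rfl fun j _ => if_pos (hall j), prod_const_one]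
      · rw [if_neg hall]
        push Not at hall
        obtain ⟨j, hj⟩ := hall
        symm
        exact prod_eq_zero (mem_univ j) (if_neg (not_lt.2 hj))
    rw [h2]
    refine prod_le_prod (fun j _ => ?_) fun j _ => hr2 n j
    split_ifs <;> norm_num
  refine h1.trans ?_
  set H := Fintype.piFinset (fun _ : Fin k => Icc (-(K : ℤ)) K) with hH
  set c : Fin k → ℤ → ℂ := fun j h => cc (ℓ j) (1 / √K) (2 / √K) h with hc
  have h3 : ((∑ n ∈ S, ∏ j, r n j : ℝ) : ℂ) =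
      ∑ g ∈ H, (∏ j, c j (g j)) * e (-∑ j, (g j : ℝ) * a j) * ∑ n ∈ S, e (∑ j, (g j : ℝ) * t n j) := by
    push_cast
    have h4 : ∀ n ∈ S, ∏ j, (r n j : ℂ) =
        ∑ g ∈ H, (∏ j, c j (g j)) * e (-∑ j, (g j : ℝ) * a j) * e (∑ j, (g j : ℝ) * t n j) := by
      intro n _
      rw [prod_congr rfl fun j _ => hr1 n j, prod_univ_sum]
      refine sum_congr rfl fun g _ => ?_
      rw [prod_mul_distrib, mul_assoc]
      congr 1
      rw [← e_add, ← e_sum]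
      congr 1
      rw [← sum_neg_distrib, ← sum_add_distrib]
      exact sum_congr rfl fun j _ => by ring
    rw [sum_congr rfl h4, sum_comm]
    refine sum_congr rfl fun g _ => ?_
    rw [mul_sum]
  have h5 : ∑ n ∈ S, ∏ j, r n j ≤ ‖((∑ n ∈ S, ∏ j, r n j : ℝ) : ℂ)‖ := by
    rw [Complex.norm_real]
    exact le_abs_self _
  refine h5.trans ?_
  rw [h3]
  have h6 : ∀ g ∈ H, ‖(∏ j, c j (g j)) * e (-∑ j, (g j : ℝ) * a j) * ∑ n ∈ S, e (∑ j, (g j : ℝ) * t n j)‖ ≤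
      (if g = 0 then S.card * ∏ j, (ℓ j + 2 / √K) else 0) + (∏ j, ‖c j (g j)‖) * T := by
    intro g hg
    rw [norm_mul, norm_mul, norm_e, mul_one, norm_prod]
    have hp0 : 0 ≤ ∏ j, ‖c j (g j)‖ := prod_nonneg fun _ _ => norm_nonneg _
    by_cases hg0 : g = 0
    · rw [if_pos hg0]
      have h7 : ∏ j, ‖c j (g j)‖ = ∏ j, (ℓ j + 2 / √K) := by
        refine prod_congr rfl fun j _ => ?_
        rw [hg0]
        simp only [hc, Pi.zero_apply]
        unfold cc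
        rw [if_pos rfl, Complex.norm_real, Real.norm_eq_abs, abs_of_nonneg]
        have := hℓ0 j
        positivity
      have h8 : ‖∑ n ∈ S, e (∑ j, (g j : ℝ) * t n j)‖ ≤ S.card := by
        refine (norm_sum_le _ _).trans ?_
        rw [sum_congr rfl fun n _ => norm_e _]
        simp
      have h9 : (∏ j, ‖c j (g j)‖) * ‖∑ n ∈ S, e (∑ j, (g j : ℝ) * t n j)‖ ≤
          (∏ j, (ℓ j + 2 / √K)) * S.card := by
        rw [h7] at hp0 ⊢
        exact mul_le_mul_of_nonneg_left h8 hp0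
      have h10 : 0 ≤ (∏ j, ‖c j (g j)‖) * T := mul_nonneg hp0 hT0
      linarith
    · rw [if_neg hg0, zero_add]
      apply mul_le_mul_of_nonneg_left _ hp0
      refine hT g hg0 fun j => ?_
      have := (Fintype.mem_piFinset.1 hg) j
      rw [mem_Icc] at this
      exact abs_le.2 this
  refine (norm_sum_le _ _).trans ((sum_le_sum h6).trans ?_)
  rw [sum_add_distrib, ← sum_mul]
  have h7 : ∑ g ∈ H, (if g = 0 then S.card * ∏ j, (ℓ j + 2 / √K) else 0) ≤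
      S.card * ∏ j, (ℓ j + 2 / √K) := by
    rw [sum_ite_eq' H 0]
    split_ifs
    · exact le_rfl
    · refine mul_nonneg (Nat.cast_nonneg _) (prod_nonneg fun j _ => ?_)
      have := hℓ0 j
      positivity
  have h8 : ∑ g ∈ H, ∏ j, ‖c j (g j)‖ ≤ (5 + 2 * Real.log K) ^ k := by
    have h9 := prod_univ_sum (fun _ : Fin k => Icc (-(K : ℤ)) K) (fun j h => ‖c j h‖)
    rw [hH, ← h9]
    calc ∏ j, ∑ h ∈ Icc (-(K : ℤ)) K, ‖c j h‖ ≤ ∏ _j : Fin k, (5 + 2 * Real.log K) := by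
          refine prod_le_prod (fun j _ => sum_nonneg fun _ _ => norm_nonneg _) fun j _ => ?_
          exact sum_norm_cc (ℓ j) (hℓ0 j) (hℓ1 j) K hK
      _ = _ := by rw [prod_const, card_univ, Fintype.card_fin]
  have := mul_le_mul_of_nonneg_right h8 hT0
  linarith

end Pool.Agent.V5helper26.PM.ETK
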