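import Mathlib
import Pool.Agent.R485.Mult.Disc
import Pool.Agent.H807R2.Dav1

/-!
# Moments of exponential sums over a weighted family of numbers
-/

set_option autoImplicit false

namespace Pool.Agent.V5helper26.PM

open Finset Filter Topology
open Pool.Agent.H469R2.NK (e norm_e e_add e_zero conj_e)
open Pool.Agent.R485.Mult (sg abs_sg pow_expand count_vanish dev_bound)

lemma e_eq_ee (t : ℝ) : e t = Pool.Agent.H807R2.Dav.ee t := by
  unfold e Pool.Agent.H807R2.Dav.ee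
  congr 1
  try push_cast
  try ring

/-- `∑ ± b ^ (p j)` -/
def KK (b : ℕ) {D : ℕ} (p : Fin D → ℕ) : ℤ := ∑ j : Fin D, sg j * (b : ℤ) ^ (p j)

/-- the moments of the exponential sums over a weighted family of numbers -/
theorem moment_abs {ι : Type} (S : Finset ι) (c z : ι → ℝ) (hc : ∀ m ∈ S, 0 ≤ c m) (W E : ℝ)
    (hW : ∑ m ∈ S, c m ≤ W) (hE0 : 0 ≤ E) (b : ℕ) (hb : 2 ≤ b) (s : ℕ) (hs : 1 ≤ s) (N h n : ℕ)
    (hn : n ≤ N)
    (hE : ∀ p : Fin (2 * s) → ℕ, (∀ j, p j ≤ N) → KK b p ≠ 0 →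
      ‖∑ m ∈ S, (c m : ℂ) * e (h * KK b p * z m)‖ ≤ E) :
    ∑ m ∈ S, c m * ‖∑ i ∈ Icc 1 n, e (h * z m * (b : ℝ) ^ i)‖ ^ (2 * s) ≤
      W * (s ^ (2 * s) * (2 * (2 * s) + 1) ^ (2 * s) * N ^ s : ℕ) + (N : ℝ) ^ (2 * s) * E := by
  classical
  have hW0 : 0 ≤ W := (sum_nonneg hc).trans hW
  set PP := Fintype.piFinset (fun _ : Fin (2 * s) => Icc 1 n) with hPP
  have h1 : ((∑ m ∈ S, c m * ‖∑ i ∈ Icc 1 n, e (h * z m * (b : ℝ) ^ i)‖ ^ (2 * s) : ℝ) : ℂ) =
      ∑ p ∈ PP, ∑ m ∈ S, (c m : ℂ) * e (h * KK b p * z m) := by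
    rw [Complex.ofReal_sum, sum_comm]
    refine sum_congr rfl fun m _ => ?_
    rw [Complex.ofReal_mul, pow_expand, mul_sum]
    refine sum_congr rfl fun p _ => ?_
    congr 2
    unfold KK
    ring
  have h2 : ∑ m ∈ S, c m * ‖∑ i ∈ Icc 1 n, e (h * z m * (b : ℝ) ^ i)‖ ^ (2 * s) =
      ‖∑ p ∈ PP, ∑ m ∈ S, (c m : ℂ) * e (h * KK b p * z m)‖ := by
    rw [← h1, Complex.norm_real, Real.norm_eq_abs, abs_of_nonneg]
    exact sum_nonneg fun m hm => mul_nonneg (hc m hm) (by positivity)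
  rw [h2]
  have h3 : ∀ p ∈ PP, ‖∑ m ∈ S, (c m : ℂ) * e (h * KK b p * z m)‖ ≤
      (if KK b p = 0 then W else 0) + E := by
    intro p hp
    split_ifs with hp0
    · have : ‖∑ m ∈ S, (c m : ℂ) * e (h * KK b p * z m)‖ ≤ W := by
        refine (norm_sum_le _ _).trans (le_trans (le_of_eq (sum_congr rfl fun m hm => ?_)) hW)
        rw [norm_mul, norm_e, mul_one, Complex.norm_real, Real.norm_eq_abs, abs_of_nonneg (hc m hm)]
      linarith
    · rw [zero_add]
      refine hE p (fun j => ?_) hp0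
      have := (Fintype.mem_piFinset.1 hp) j
      rw [mem_Icc] at this
      omega
  refine (norm_sum_le _ _).trans ((sum_le_sum h3).trans ?_)
  rw [sum_add_distrib, ← sum_filter, sum_const, sum_const, nsmul_eq_mul, nsmul_eq_mul]
  apply add_le_add
  · rw [mul_comm]
    apply mul_le_mul_of_nonneg_left _ hW0
    have h7 := count_vanish b hb s hs (fun j => sg j) (fun j => abs_sg j) n
    refine (Nat.cast_le.2 h7).trans ?_
    exact_mod_cast Nat.mul_le_mul_left _ (Nat.pow_le_pow_left hn s)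
  · apply mul_le_mul_of_nonneg_right _ hE0
    rw [hPP, Fintype.card_piFinset]
    simp only [Nat.card_Icc, Nat.add_sub_cancel, prod_const, card_univ, Fintype.card_fin]
    push_cast
    exact pow_le_pow_left₀ (Nat.cast_nonneg _) (by exact_mod_cast hn) _

/-- `z` is equidistributed up to the `N`-th digit with an error of at most `E` -/
def Disc (b N : ℕ) (E z : ℝ) : Prop :=
  ∀ n : ℕ, n ≤ N → ∀ α β : ℝ, 0 ≤ α → α < β → β ≤ 1 →
    |(((Icc 1 n).filter (fun i : ℕ => α ≤ Int.fract (z * (b : ℝ) ^ i) ∧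
      Int.fract (z * (b : ℝ) ^ i) < β)).card : ℝ) - (β - α) * n| ≤ E

open Classical in
/-- **The total weight of the exceptional members of a weighted family.** -/
theorem main_abs (B : ℕ) (δ : ℝ) (hδ : 0 < δ) (A : ℕ) :
    ∃ s : ℕ, 1 ≤ s ∧ ∃ N₀ : ℕ, ∀ N : ℕ, N₀ ≤ N → ∀ {ι : Type} (S : Finset ι) (c z : ι → ℝ),
      (∀ m ∈ S, 0 ≤ c m) → ∀ W : ℝ, ∑ m ∈ S, c m ≤ W →
      (∀ b : ℕ, 2 ≤ b → b ≤ B → ∀ h : ℕ, 1 ≤ h → h ≤ N → ∀ p : Fin (2 * s) → ℕ,
        (∀ j, p j ≤ N) → KK b p ≠ 0 →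
        ‖∑ m ∈ S, (c m : ℂ) * e (h * KK b p * z m)‖ ≤ W / N ^ s) →
      (∑ m ∈ S.filter (fun m => ¬ ∀ b : ℕ, 2 ≤ b → b ≤ B → Disc b N ((N : ℝ) ^ (1 / 2 + δ)) (z m)),
        c m) * N ^ A ≤ W := by
  set s : ℕ := max 1 ⌈((A : ℝ) + 3) / δ⌉₊ with hs
  have hs1 : 1 ≤ s := le_max_left _ _
  have hsδ : (A : ℝ) + 3 ≤ s * δ := by
    have h0 : ⌈((A : ℝ) + 3) / δ⌉₊ ≤ s := le_max_right _ _
    have h1 : ((A : ℝ) + 3) / δ ≤ s := (Nat.le_ceil _).trans (Nat.cast_le.2 h0)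
    rwa [div_le_iff₀ hδ] at h1
  set C : ℕ := s ^ (2 * s) * (2 * (2 * s) + 1) ^ (2 * s) + 1 with hC
  have hl2 : ∀ᶠ N : ℕ in atTop, 6 + 2 * Real.log N ≤ (N : ℝ) ^ (δ / 2) := by
    have h1 : (fun u : ℝ => 6 + 2 * Real.log u) =o[atTop] (fun u : ℝ => u ^ (δ / 2)) := by
      apply Asymptotics.IsLittleO.add
      · exact Asymptotics.isLittleO_const_left.2 (Or.inr (by
          refine tendsto_norm_atTop_atTop.comp (tendsto_rpow_atTop (by positivity))))
      · exact (isLittleO_log_rpow_atTop (by positivity)).const_mul_left 2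
    have h2 := (h1.comp_tendsto tendsto_natCast_atTop_atTop).bound (c := 1) one_pos
    filter_upwards [h2, eventually_ge_atTop 1] with N hN hN1
    simp only [Function.comp, Real.norm_eq_abs, one_mul] at hN
    have hN1' : (1 : ℝ) ≤ N := by exact_mod_cast hN1
    rw [abs_of_nonneg (a := (N : ℝ) ^ (δ / 2)) (by positivity)] at hN
    exact (le_abs_self _).trans hN
  obtain ⟨N2, hN2⟩ := eventually_atTop.1 hl2
  refine ⟨s, hs1, max N2 (max 1 (2 * B * C)), fun N hN ι S c z hc W hW hE => ?_⟩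
  have hNc := hN2 N ((le_max_left _ _).trans hN)
  have hNd : 1 ≤ N := ((le_max_left _ _).trans (le_max_right _ _)).trans hN
  have hNe : 2 * B * C ≤ N := ((le_max_right _ _).trans (le_max_right _ _)).trans hN
  have hNR : (1 : ℝ) ≤ N := by exact_mod_cast hNd
  have hN0 : (0 : ℝ) < N := by linarith
  have hW0 : 0 ≤ W := (sum_nonneg hc).trans hW
  set T : ℝ := (N : ℝ) ^ (1 / 2 + δ / 2) with hTd
  have hT0 : 0 < T := Real.rpow_pos_of_pos hN0 _
  have hTs : T ^ (2 * s) = (N : ℝ) ^ s * (N : ℝ) ^ (s * δ) := by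
    rw [hTd, ← Real.rpow_natCast, ← Real.rpow_mul hN0.le, ← Real.rpow_natCast (N : ℝ) s,
      ← Real.rpow_add hN0]
    congr 1
    push_cast
    ring
  have hTs2 : (N : ℝ) ^ s * (N : ℝ) ^ (A + 3) ≤ T ^ (2 * s) := by
    rw [hTs]
    apply mul_le_mul_of_nonneg_left _ (by positivity)
    rw [← Real.rpow_natCast]
    apply Real.rpow_le_rpow_of_exponent_le hNR
    push_cast
    exact hsδ
  -- the exceptional sets
  set F : ℕ → ℕ → ℕ → ι → ℂ := fun b h n m => ∑ i ∈ Icc 1 n, e (h * z m * (b : ℝ) ^ i) with hF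
  set Ex : ℕ → ℕ → ℕ → Finset ι := fun b h n => S.filter (fun m => T < ‖F b h n m‖) with hEx
  have hEc : ∀ b ∈ Icc 2 B, ∀ h ∈ Icc 1 N, ∀ n ∈ range (N + 1),
      ∑ m ∈ Ex b h n, c m ≤ W * C / N ^ (A + 3) := by
    intro b hb h hh n hn
    rw [mem_Icc] at hb hh
    rw [mem_range] at hn
    have h1 := moment_abs S c z hc W (W / N ^ s) hW (by positivity) b hb.1 s hs1 N h n (by omega)
      (hE b hb.1 hb.2 h hh.1 hh.2)
    have h2 : (∑ m ∈ Ex b h n, c m) * T ^ (2 * s) ≤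
        ∑ m ∈ S, c m * ‖∑ i ∈ Icc 1 n, e (h * z m * (b : ℝ) ^ i)‖ ^ (2 * s) := by
      rw [sum_mul]
      calc ∑ m ∈ Ex b h n, c m * T ^ (2 * s) ≤ ∑ m ∈ Ex b h n, c m * ‖F b h n m‖ ^ (2 * s) := by
            refine sum_le_sum fun m hm => ?_
            rw [hEx, mem_filter] at hm
            exact mul_le_mul_of_nonneg_left (pow_le_pow_left₀ hT0.le hm.2.le _) (hc m hm.1)
        _ ≤ ∑ m ∈ S, c m * ‖F b h n m‖ ^ (2 * s) :=
            sum_le_sum_of_subset_of_nonneg (filter_subset _ _) fun m hm _ =>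
              mul_nonneg (hc m hm) (by positivity)
    have h3 : (N : ℝ) ^ (2 * s) * (W / N ^ s) = W * N ^ s := by
      have e2 : (N : ℝ) ^ (2 * s) = N ^ s * N ^ s := by ring
      rw [e2]
      field_simp
    have h4 : (∑ m ∈ Ex b h n, c m) * ((N : ℝ) ^ s * (N : ℝ) ^ (A + 3)) ≤ W * C * N ^ s := by
      refine (mul_le_mul_of_nonneg_left hTs2 ?_).trans (h2.trans (h1.trans ?_))
      · exact sum_nonneg fun m hm => hc m (filter_subset _ _ hm)
      · rw [hC, h3]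
        push_cast
        linarith
    rw [le_div_iff₀ (by positivity)]
    have h5 : (∑ m ∈ Ex b h n, c m) * (N : ℝ) ^ (A + 3) * N ^ s ≤ W * C * N ^ s := by linarith
    exact le_of_mul_le_mul_right h5 (by positivity)
  have hsub : ∀ m ∈ S.filter (fun m => ¬ ∀ b : ℕ, 2 ≤ b → b ≤ B → Disc b N ((N : ℝ) ^ (1 / 2 + δ)) (z m)),
      ∃ b ∈ Icc 2 B, ∃ h ∈ Icc 1 N, ∃ n ∈ range (N + 1), m ∈ Ex b h n := by
    intro m hm
    rw [mem_filter] at hm
    obtain ⟨hmS, hbad⟩ := hm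
    by_contra hcon
    push Not at hcon
    apply hbad
    intro b hb2 hbB n hn α β h0 h1 h2
    have hT : ∀ h : ℕ, 1 ≤ h → h ≤ N → ‖∑ i ∈ Icc 1 n, e (h * (z m * (b : ℝ) ^ i))‖ ≤ T := by
      intro h hh1 hh2
      by_contra hcon2
      push Not at hcon2
      refine hcon b (mem_Icc.2 ⟨hb2, hbB⟩) h (mem_Icc.2 ⟨hh1, hh2⟩) n (mem_range.2 (by omega)) ?_
      rw [hEx, mem_filter]
      refine ⟨hmS, ?_⟩
      rw [hF]
      simp only
      have : ∀ i : ℕ, (h : ℝ) * (z m * (b : ℝ) ^ i) = h * z m * (b : ℝ) ^ i := fun i => by ring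
      simp_rw [this] at hcon2
      exact hcon2
    have h5 := dev_bound (fun i => z m * (b : ℝ) ^ i) n N hn hNd T hT α β h0 h1 h2
    refine h5.trans ?_
    have h6 : Real.sqrt N ≤ T := by
      rw [Real.sqrt_eq_rpow, hTd]
      exact Real.rpow_le_rpow_of_exponent_le hNR (by linarith)
    have h7 : (N : ℝ) ^ (1 / 2 + δ) = T * (N : ℝ) ^ (δ / 2) := by
      rw [hTd, ← Real.rpow_add hN0]
      congr 1
      ring
    rw [h7]
    have h8 := mul_le_mul_of_nonneg_left hNc hT0.le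
    nlinarith
  set U : Finset ι := (Icc 2 B).biUnion fun b => (Icc 1 N).biUnion fun h =>
    (range (N + 1)).biUnion fun n => Ex b h n with hU
  have hUS : U ⊆ S := by
    intro m hm
    rw [hU, mem_biUnion] at hm
    obtain ⟨b, _, hm⟩ := hm
    rw [mem_biUnion] at hm
    obtain ⟨h, _, hm⟩ := hm
    rw [mem_biUnion] at hm
    obtain ⟨n, _, hm⟩ := hm
    exact filter_subset _ _ hm
  have hsum : ∑ m ∈ S.filter (fun m => ¬ ∀ b : ℕ, 2 ≤ b → b ≤ B → Disc b N ((N : ℝ) ^ (1 / 2 + δ)) (z m)),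
      c m ≤ ∑ b ∈ Icc 2 B, ∑ h ∈ Icc 1 N, ∑ n ∈ range (N + 1), ∑ m ∈ Ex b h n, c m := by
    have h1 : ∑ m ∈ S.filter (fun m => ¬ ∀ b : ℕ, 2 ≤ b → b ≤ B → Disc b N ((N : ℝ) ^ (1 / 2 + δ)) (z m)),
        c m ≤ ∑ m ∈ S, ∑ b ∈ Icc 2 B, ∑ h ∈ Icc 1 N, ∑ n ∈ range (N + 1),
          (if m ∈ Ex b h n then c m else 0) := by
      rw [sum_filter]
      refine sum_le_sum fun m hm => ?_
      have hnn : ∀ b h n, 0 ≤ (if m ∈ Ex b h n then c m else 0) := by
        intro b h n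
        split_ifs
        · exact hc m hm
        · exact le_rfl
      split_ifs with hbad
      · exact sum_nonneg fun b _ => sum_nonneg fun h _ => sum_nonneg fun n _ => hnn b h n
      · obtain ⟨b, hb, h, hh, n, hn, hmE⟩ := hsub m (mem_filter.2 ⟨hm, hbad⟩)
        calc c m = (if m ∈ Ex b h n then c m else 0) := by rw [if_pos hmE]
          _ ≤ ∑ n ∈ range (N + 1), (if m ∈ Ex b h n then c m else 0) :=
            single_le_sum (f := fun n => if m ∈ Ex b h n then c m else 0) (fun n _ => hnn b h n) hn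
          _ ≤ ∑ h ∈ Icc 1 N, ∑ n ∈ range (N + 1), (if m ∈ Ex b h n then c m else 0) :=
            single_le_sum (f := fun h => ∑ n ∈ range (N + 1), (if m ∈ Ex b h n then c m else 0))
              (fun h _ => sum_nonneg fun n _ => hnn b h n) hh
          _ ≤ _ := single_le_sum (f := fun b => ∑ h ∈ Icc 1 N, ∑ n ∈ range (N + 1),
              (if m ∈ Ex b h n then c m else 0))
              (fun b _ => sum_nonneg fun h _ => sum_nonneg fun n _ => hnn b h n) hb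
    refine h1.trans (le_of_eq ?_)
    rw [sum_comm]
    refine sum_congr rfl fun b _ => ?_
    rw [sum_comm]
    refine sum_congr rfl fun h _ => ?_
    rw [sum_comm]
    refine sum_congr rfl fun n _ => ?_
    rw [← sum_filter]
    refine sum_congr ?_ fun _ _ => rfl
    ext m
    rw [mem_filter]
    constructor
    · exact fun h => h.2
    · exact fun h => ⟨filter_subset _ _ h, h⟩
  have hUc : ∑ b ∈ Icc 2 B, ∑ h ∈ Icc 1 N, ∑ n ∈ range (N + 1), ∑ m ∈ Ex b h n, c m ≤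
      B * (N * ((N + 1) * (W * C / N ^ (A + 3)))) := by
    have hq : 0 ≤ W * C / N ^ (A + 3) := by positivity
    have h2 : ∀ b ∈ Icc 2 B, ∑ h ∈ Icc 1 N, ∑ n ∈ range (N + 1), ∑ m ∈ Ex b h n, c m ≤
        N * ((N + 1) * (W * C / N ^ (A + 3))) := by
      intro b hb
      refine (sum_le_sum (g := fun _ => ((N : ℝ) + 1) * (W * C / N ^ (A + 3))) fun h hh => ?_).trans ?_
      · refine (sum_le_sum (hEc b hb h hh)).trans ?_
        rw [sum_const, card_range, nsmul_eq_mul]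
        push_cast
        exact le_rfl
      · rw [sum_const, Nat.card_Icc, nsmul_eq_mul, Nat.add_sub_cancel]
    refine (sum_le_sum h2).trans ?_
    rw [sum_const, Nat.card_Icc, nsmul_eq_mul]
    apply mul_le_mul_of_nonneg_right _ (by positivity)
    exact_mod_cast (by omega : B + 1 - 2 ≤ B)
  have h1 : (B : ℝ) * (N * ((N + 1) * (W * C / N ^ (A + 3)))) * N ^ A =
      W * (B * C * (N + 1) / N ^ 2) := by
    field_simp
    ring
  have h2 : (B : ℝ) * C * (N + 1) / N ^ 2 ≤ 1 := by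
    rw [div_le_one (by positivity)]
    have h3 : 2 * (B : ℝ) * C ≤ N := by exact_mod_cast hNe
    have h4 : (0 : ℝ) ≤ B * C := by positivity
    nlinarith
  calc _ ≤ (B : ℝ) * (N * ((N + 1) * (W * C / N ^ (A + 3)))) * N ^ A :=
        mul_le_mul_of_nonneg_right (hsum.trans hUc) (by positivity)
    _ = W * (B * C * (N + 1) / N ^ 2) := h1
    _ ≤ W * 1 := mul_le_mul_of_nonneg_left h2 hW0
    _ = W := mul_one _

end Pool.Agent.V5helper26.PM
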