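import Mathlib
import Pool.Agent.V5helper26.PM.ETK

/-!
# An inequality of Erdős–Turán–Koksma type for boxes
-/

set_option autoImplicit false

namespace Pool.Agent.V5helper26.PM.ETK

open Finset Filter Topology
open Pool.Agent.H469R2.NK (e norm_e e_add e_zero conj_e)

lemma fract_sub_lt (u α : ℝ) (h0 : 0 ≤ α) (h1 : α ≤ 1) :
    Int.fract (u - α) = if α ≤ Int.fract u then Int.fract u - α else Int.fract u - α + 1 := by
  have hu0 := Int.fract_nonneg u
  have hu1 := Int.fract_lt_one u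
  have hu : u = Int.fract u + (⌊u⌋ : ℤ) := (Int.fract_add_floor u).symm
  set f := Int.fract u with hf
  have h2 : u - α = (f - α) + (⌊u⌋ : ℤ) := by linarith
  rw [h2, Int.fract_add_intCast]
  split_ifs with h
  · exact Int.fract_eq_self.2 ⟨by linarith, by linarith⟩
  · push Not at h
    have : f - α = (f - α + 1) + ((-1 : ℤ) : ℝ) := by push_cast; ring
    conv_lhs => rw [this]
    rw [Int.fract_add_intCast, Int.fract_eq_self.2 ⟨by linarith, by linarith⟩]

lemma arc_iff (u α β : ℝ) (h0 : 0 ≤ α) (h1 : α ≤ β) (h2 : β ≤ 1) :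
    (α ≤ Int.fract u ∧ Int.fract u < β) ↔ Int.fract (u - α) < β - α := by
  have hu0 := Int.fract_nonneg u
  have hu1 := Int.fract_lt_one u
  rw [fract_sub_lt u α h0 (h1.trans h2)]
  split_ifs with h
  · constructor
    · intro h3; linarith [h3.2]
    · intro h3; exact ⟨h, by linarith⟩
  · constructor
    · intro h3; exact absurd h3.1 h
    · intro h3; linarith

lemma arc_compl (u α β : ℝ) (h0 : 0 ≤ α) (h1 : α ≤ β) (h2 : β ≤ 1) :
    ¬ (α ≤ Int.fract u ∧ Int.fract u < β) ↔ Int.fract (u - β) < 1 - (β - α) := by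
  have hu0 := Int.fract_nonneg u
  have hu1 := Int.fract_lt_one u
  rw [fract_sub_lt u β (h0.trans h1) h2]
  split_ifs with h
  · constructor
    · intro _; linarith
    · intro _ h3; linarith [h3.2]
  · push Not at h
    constructor
    · intro h3
      by_contra h4
      push Not at h4
      exact h3 ⟨by linarith, h⟩
    · intro h3 h4
      linarith [h4.1]

lemma prod_add_le {κ : Type} (s : Finset κ) (ℓ : κ → ℝ) (ρ : ℝ) (hρ0 : 0 ≤ ρ) (hρ : ρ ≤ 2)
    (h0 : ∀ j, 0 ≤ ℓ j) (h1 : ∀ j, ℓ j ≤ 1) :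
    ∏ j ∈ s, (ℓ j + ρ) ≤ ∏ j ∈ s, ℓ j + (3 ^ s.card - 1) / 2 * ρ := by
  classical
  induction s using Finset.induction_on with
  | empty => simp
  | insert a s ha ih =>
    rw [prod_insert ha, prod_insert ha, card_insert_of_notMem ha]
    have hP0 : 0 ≤ ∏ j ∈ s, ℓ j := prod_nonneg fun j _ => h0 j
    have hP1 : ∏ j ∈ s, ℓ j ≤ 1 := prod_le_one (fun j _ => h0 j) fun j _ => h1 j
    have hc : (0 : ℝ) ≤ (3 ^ s.card - 1) / 2 * ρ := by
      have : (1 : ℝ) ≤ 3 ^ s.card := one_le_pow₀ (by norm_num)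
      apply mul_nonneg _ hρ0
      linarith
    have ha0 := h0 a
    have ha1 := h1 a
    calc (ℓ a + ρ) * ∏ j ∈ s, (ℓ j + ρ) ≤ (ℓ a + ρ) * (∏ j ∈ s, ℓ j + (3 ^ s.card - 1) / 2 * ρ) :=
          mul_le_mul_of_nonneg_left ih (by linarith)
      _ = ℓ a * ∏ j ∈ s, ℓ j + ρ * ∏ j ∈ s, ℓ j + (ℓ a + ρ) * ((3 ^ s.card - 1) / 2 * ρ) := by ring
      _ ≤ ℓ a * ∏ j ∈ s, ℓ j + ρ * 1 + 3 * ((3 ^ s.card - 1) / 2 * ρ) := by
          gcongr
          linarith
      _ = _ := by rw [pow_succ]; ring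

open Classical in
/-- **An inequality of Erdős–Turán–Koksma type.** -/
theorem box {ι : Type} (S : Finset ι) (k : ℕ) (t : ι → Fin k → ℝ) (K : ℕ) (hK : 1 ≤ K) (T : ℝ)
    (hT0 : 0 ≤ T)
    (hT : ∀ g : Fin k → ℤ, g ≠ 0 → (∀ j, |g j| ≤ K) → ‖∑ n ∈ S, e (∑ j, (g j : ℝ) * t n j)‖ ≤ T)
    (α β : Fin k → ℝ) (h0 : ∀ j, 0 ≤ α j) (h1 : ∀ j, α j ≤ β j) (h2 : ∀ j, β j ≤ 1) :
    |((S.filter (fun n => ∀ j, α j ≤ Int.fract (t n j) ∧ Int.fract (t n j) < β j)).card : ℝ) -
      S.card * ∏ j, (β j - α j)| ≤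
      (k + 1) * (S.card * (3 ^ k * (2 / √K)) + (5 + 2 * Real.log K) ^ k * T) := by
  have hKR : (1 : ℝ) ≤ K := by exact_mod_cast hK
  have hsq : (1 : ℝ) ≤ √K := Real.one_le_sqrt.2 hKR
  have hsq0 : 0 < √(K : ℝ) := by linarith
  have hlogK : 0 ≤ Real.log K := Real.log_nonneg hKR
  set ρ : ℝ := 2 / √K with hρ
  have hρ0 : 0 ≤ ρ := by positivity
  have hρ2 : ρ ≤ 2 := div_le_self (by norm_num) hsq
  set Er : ℝ := S.card * (3 ^ k * ρ) + (5 + 2 * Real.log K) ^ k * T with hEr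
  have hEr0 : 0 ≤ Er := by positivity
  -- a general upper bound
  have hup : ∀ a ℓ : Fin k → ℝ, (∀ j, 0 ≤ ℓ j) → (∀ j, ℓ j ≤ 1) →
      ((S.filter (fun n => ∀ j, Int.fract (t n j - a j) < ℓ j)).card : ℝ) ≤
        S.card * ∏ j, ℓ j + Er := by
    intro a ℓ hℓ0 hℓ1
    refine (upper S k t K hK T hT0 hT a ℓ hℓ0 hℓ1).trans ?_
    have h3 := prod_add_le univ ℓ ρ hρ0 hρ2 hℓ0 hℓ1
    rw [card_univ, Fintype.card_fin] at h3
    have h4 : ∏ j, (ℓ j + 2 / √K) ≤ ∏ j, ℓ j + 3 ^ k * ρ := by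
      refine h3.trans ?_
      have : ((3 : ℝ) ^ k - 1) / 2 * ρ ≤ 3 ^ k * ρ := by
        apply mul_le_mul_of_nonneg_right _ hρ0
        have : (1 : ℝ) ≤ 3 ^ k := one_le_pow₀ (by norm_num)
        linarith
      linarith
    have h5 := mul_le_mul_of_nonneg_left h4 (Nat.cast_nonneg (α := ℝ) S.card)
    rw [hEr]
    linarith
  set ℓ : Fin k → ℝ := fun j => β j - α j with hℓ
  have hℓ0 : ∀ j, 0 ≤ ℓ j := fun j => sub_nonneg.2 (h1 j)
  have hℓ1 : ∀ j, ℓ j ≤ 1 := fun j => by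
    have := h0 j; have := h2 j
    simp only [hℓ]; linarith
  set In : ι → Fin k → Prop := fun n j => α j ≤ Int.fract (t n j) ∧ Int.fract (t n j) < β j with hIn
  have hup1 : ((S.filter (fun n => ∀ j, In n j)).card : ℝ) ≤ S.card * ∏ j, ℓ j + Er := by
    refine le_trans (le_of_eq ?_) (hup α ℓ hℓ0 hℓ1)
    congr 2
    ext n
    rw [mem_filter, mem_filter]
    refine and_congr_right fun _ => forall_congr' fun j => ?_
    exact arc_iff _ _ _ (h0 j) (h1 j) (h2 j)
  -- the lower bound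
  set Aj : Fin k → Finset ι := fun j => S.filter (fun n => (∀ i, i < j → In n i) ∧ ¬ In n j) with hAj
  have hAjc : ∀ j, ((Aj j).card : ℝ) ≤ S.card * ((1 - ℓ j) * ∏ i ∈ univ.filter (fun i => i < j), ℓ i) + Er := by
    intro j
    set a' : Fin k → ℝ := fun i => if i < j then α i else if i = j then β i else 0 with ha'
    set ℓ' : Fin k → ℝ := fun i => if i < j then ℓ i else if i = j then 1 - ℓ i else 1 with hℓ'
    have h3 := hup a' ℓ' (by
      intro i
      simp only [hℓ']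
      split_ifs
      · exact hℓ0 i
      · have := hℓ1 i; linarith
      · norm_num) (by
      intro i
      simp only [hℓ']
      split_ifs
      · exact hℓ1 i
      · have := hℓ0 i; linarith
      · norm_num)
    have h4 : Aj j ⊆ S.filter (fun n => ∀ i, Int.fract (t n i - a' i) < ℓ' i) := by
      intro n hn
      rw [hAj, mem_filter] at hn
      rw [mem_filter]
      refine ⟨hn.1, fun i => ?_⟩
      simp only [ha', hℓ']
      split_ifs with h5 h6
      · exact (arc_iff _ _ _ (h0 i) (h1 i) (h2 i)).1 (hn.2.1 i h5)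
      · subst h6
        exact (arc_compl _ _ _ (h0 i) (h1 i) (h2 i)).1 hn.2.2
      · exact Int.fract_lt_one _
    have h5 : ∏ i, ℓ' i = (1 - ℓ j) * ∏ i ∈ univ.filter (fun i => i < j), ℓ i := by
      have h6 : ∀ i, ℓ' i = (if i = j then 1 - ℓ j else 1) * (if i < j then ℓ i else 1) := by
        intro i
        simp only [hℓ']
        by_cases h7 : i = j
        · subst h7
          simp
        · rw [if_neg h7, if_neg h7, one_mul]
      rw [prod_congr rfl fun i _ => h6 i, prod_mul_distrib, prod_ite_eq' univ j, if_pos (mem_univ j),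
        prod_filter]
    rw [h5] at h3
    exact le_trans (by exact_mod_cast card_le_card h4) h3
  have hcover : S ⊆ S.filter (fun n => ∀ j, In n j) ∪ univ.biUnion Aj := by
    intro n hn
    rw [mem_union, mem_filter, mem_biUnion]
    by_cases hall : ∀ j, In n j
    · exact Or.inl ⟨hn, hall⟩
    · right
      push Not at hall
      set Bd : Finset (Fin k) := univ.filter (fun j => ¬ In n j) with hBd
      have hne : Bd.Nonempty := by
        obtain ⟨j, hj⟩ := hall
        exact ⟨j, mem_filter.2 ⟨mem_univ j, hj⟩⟩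
      refine ⟨Bd.min' hne, mem_univ _, mem_filter.2 ⟨hn, fun i hi => ?_, ?_⟩⟩
      · by_contra hcon
        have := Bd.min'_le i (mem_filter.2 ⟨mem_univ i, hcon⟩)
        exact absurd hi (not_lt.2 this)
      · exact (mem_filter.1 (Bd.min'_mem hne)).2
  have hlow : (S.card : ℝ) ≤ (S.filter (fun n => ∀ j, In n j)).card + ∑ j, ((Aj j).card : ℝ) := by
    have h3 := (card_le_card hcover).trans ((card_union_le _ _).trans
      (Nat.add_le_add_left card_biUnion_le _))
    exact_mod_cast h3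
  have hsum : ∑ j, ((Aj j).card : ℝ) ≤ S.card * (1 - ∏ j, ℓ j) + k * Er := by
    refine (sum_le_sum fun j _ => hAjc j).trans ?_
    rw [sum_add_distrib, sum_const, card_univ, Fintype.card_fin, nsmul_eq_mul, ← mul_sum]
    apply add_le_add _ le_rfl
    apply mul_le_mul_of_nonneg_left _ (Nat.cast_nonneg _)
    have h3 := prod_one_sub_ordered (univ : Finset (Fin k)) (fun j => 1 - ℓ j)
    have h4 : ∏ j, (1 - (1 - ℓ j)) = ∏ j, ℓ j := prod_congr rfl fun j _ => by ring
    have h5 : ∑ j, (1 - ℓ j) * ∏ i ∈ univ.filter (fun i => i < j), (1 - (1 - ℓ i)) =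
        ∑ j, (1 - ℓ j) * ∏ i ∈ univ.filter (fun i => i < j), ℓ i := by
      refine sum_congr rfl fun j _ => ?_
      congr 1
      exact prod_congr rfl fun i _ => by ring
    rw [h4, h5] at h3
    linarith
  have hkR : (0 : ℝ) ≤ k := Nat.cast_nonneg k
  have e1 : ((k : ℝ) + 1) * Er = k * Er + Er := by ring
  rw [e1, abs_le]
  have hkE : 0 ≤ (k : ℝ) * Er := mul_nonneg hkR hEr0
  constructor
  · have : (S.card : ℝ) * (1 - ∏ j, ℓ j) = S.card - S.card * ∏ j, ℓ j := by ring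
    linarith
  · linarith

end Pool.Agent.V5helper26.PM.ETK
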