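import Mathlib
import Pool.Agent.V5helper26.PM.Abs
import Pool.Agent.R486.PD.Defs
import Pool.Agent.H393R2.Heights

/-!
# The frequencies are far from rational numbers with small denominators
-/

set_option autoImplicit false

namespace Pool.Agent.V5helper26.PM

open Finset Filter Topology
open Pool.Agent.R485.Mult (sg abs_sg dioph)
open Pool.Agent.R486.PD (Near)

lemma KK_le (b : ℕ) (hb : 2 ≤ b) {D : ℕ} (p : Fin D → ℕ) (N : ℕ) (hp : ∀ j, p j ≤ N) :
    |(KK b p : ℝ)| ≤ D * (b : ℝ) ^ N := by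
  have hb1 : (1 : ℝ) ≤ b := by exact_mod_cast (by omega : 1 ≤ b)
  unfold KK
  push_cast
  refine (abs_sum_le_sum_abs _ _).trans ?_
  calc ∑ j : Fin D, |(sg j : ℝ) * (b : ℝ) ^ p j| ≤ ∑ _j : Fin D, (b : ℝ) ^ N := by
        refine sum_le_sum fun j _ => ?_
        rw [abs_mul, abs_of_pos (by positivity : (0 : ℝ) < (b : ℝ) ^ p j)]
        have h1 : |((sg j : ℤ) : ℝ)| = 1 := by
          rw [← Int.cast_abs, abs_sg, Int.cast_one]
        rw [h1, one_mul]
        exact pow_le_pow_right₀ hb1 (hp j)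
    _ = _ := by rw [sum_const, card_univ, Fintype.card_fin, nsmul_eq_mul]

lemma ev_pow_le_exp (A : ℕ) (κ : ℝ) (hκ : 0 < κ) : ∀ᶠ N : ℕ in atTop, (N : ℝ) ^ A ≤ Real.exp (κ * N) := by
  have h1 : Tendsto (fun u : ℝ => Real.exp u / u ^ A) atTop atTop := Real.tendsto_exp_div_pow_atTop A
  have h2 : Tendsto (fun N : ℕ => κ * (N : ℝ)) atTop atTop :=
    tendsto_natCast_atTop_atTop.const_mul_atTop hκ
  filter_upwards [(h1.comp h2).eventually_ge_atTop (1 / κ ^ A), eventually_gt_atTop 0] with N hN hN0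
  have hN0' : (0 : ℝ) < N := by exact_mod_cast hN0
  simp only [Function.comp] at hN
  rw [le_div_iff₀ (by positivity), mul_pow] at hN
  have : 1 / κ ^ A * (κ ^ A * (N : ℝ) ^ A) = (N : ℝ) ^ A := by
    have : κ ^ A ≠ 0 := by positivity
    field_simp
  linarith

/-- The frequencies are far from rational numbers with small denominators. -/
theorem far (b : ℕ) (hb : 2 ≤ b) (x : ℝ) (hx : IsAlgebraic ℚ x) (hirr : Irrational x) (s : ℕ)
    (hs : 1 ≤ s) (d : ℕ) (hd : 1 ≤ d) (C A : ℕ) (ε : ℝ) (hε : 0 < ε) :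
    ∃ κ : ℝ, 0 < κ ∧ ∃ N₀ : ℕ, ∀ N : ℕ, N₀ ≤ N → ∀ X : ℕ, Real.exp (ε * N) ≤ X →
      ∀ p : Fin (2 * s) → ℕ, (∀ j, p j ≤ N) → KK b p ≠ 0 → ∀ h : ℕ, 1 ≤ h → h ≤ N →
      ∀ u : ℤ, u ≠ 0 → |(u : ℝ)| ≤ Real.exp (κ * N) → ∀ v : ℕ, 1 ≤ v → (v : ℝ) ≤ Real.exp (κ * N) →
      ¬ Near d X (((N : ℝ) ^ A + Real.log X) ^ C) (h * KK b p * (u / v * x)) := by
  obtain ⟨κ₀, hκ₀, N1, hD⟩ := dioph b hb x hx hirr (2 * s) (ε / 2) (by positivity)
  obtain ⟨Dl, hDl1, hDl⟩ := Pool.Agent.H393R2.liouville_log hx hirr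
  have hbR : (2 : ℝ) ≤ b := by exact_mod_cast hb
  have hb0 : (0 : ℝ) < b := by linarith
  have hlogb : 0 < Real.log b := Real.log_pos (by linarith)
  set μ : ℝ := min κ₀ ε with hμ
  have hμ0 : 0 < μ := lt_min hκ₀ hε
  have hμ1 : μ ≤ κ₀ := min_le_left _ _
  have hμ2 : μ ≤ ε := min_le_right _ _
  set κ : ℝ := μ / 8 with hκd
  have hκ : 0 < κ := by positivity
  set κ₁ : ℝ := μ / (8 * (C + 1)) with hκ₁d
  have hκ₁ : 0 < κ₁ := by positivity
  have hκ₁C : 2 * C * κ₁ + κ₁ ≤ μ / 4 := by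
    have : 2 * C * κ₁ + 2 * κ₁ = μ / 4 := by
      rw [hκ₁d]; field_simp; ring
    linarith
  set c : ℝ := C + Real.log (2 * s) + (1 + κ + Real.log b) / κ₁ with hc
  have hs1 : (1 : ℝ) ≤ s := by exact_mod_cast hs
  have hlogs : 0 ≤ Real.log (2 * s) := Real.log_nonneg (by linarith)
  have hc0 : 0 ≤ c := by positivity
  -- large `Λ`
  have hΛ : ∀ᶠ Λ : ℝ in atTop, c * (1 + Real.log Λ) < Λ / (2 * Dl) := by
    have h1 : (fun u : ℝ => c * (1 + Real.log u)) =o[atTop] (fun u : ℝ => u) := by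
      apply Asymptotics.IsLittleO.const_mul_left
      apply Asymptotics.IsLittleO.add
      · exact Asymptotics.isLittleO_const_id_atTop 1
      · exact Real.isLittleO_log_id_atTop
    have h2 := h1.def (c := 1 / (4 * Dl)) (by positivity)
    filter_upwards [h2, eventually_gt_atTop 0] with u hu hu0
    rw [Real.norm_eq_abs, Real.norm_eq_abs, abs_of_pos hu0] at hu
    refine lt_of_le_of_lt ((le_abs_self _).trans hu) ?_
    rw [one_div, inv_mul_eq_div]
    apply div_lt_div_of_pos_left hu0 (by positivity)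
    linarith
  obtain ⟨Λ₀, hΛ₀⟩ := eventually_atTop.1 hΛ
  have hN : ∀ᶠ N : ℕ in atTop, (N : ℝ) ^ A ≤ Real.exp (κ₁ * N) ∧ 2 ≤ Real.exp (κ₁ * N) ∧
      (N : ℝ) ^ 1 ≤ Real.exp (κ₁ * N) ∧ max (max Λ₀ (2 * Dl)) 3 ≤ ε * N ∧ N1 ≤ N ∧ 1 ≤ N := by
    have t1 : Tendsto (fun N : ℕ => κ₁ * (N : ℝ)) atTop atTop :=
      tendsto_natCast_atTop_atTop.const_mul_atTop hκ₁
    have t2 : Tendsto (fun N : ℕ => ε * (N : ℝ)) atTop atTop :=
      tendsto_natCast_atTop_atTop.const_mul_atTop hε
    filter_upwards [ev_pow_le_exp A κ₁ hκ₁, (Real.tendsto_exp_atTop.comp t1).eventually_ge_atTop 2,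
      ev_pow_le_exp 1 κ₁ hκ₁, t2.eventually_ge_atTop (max (max Λ₀ (2 * Dl)) 3),
      eventually_ge_atTop N1, eventually_ge_atTop 1] with N h1 h2 h3 h4 h5 h6
    exact ⟨h1, h2, h3, h4, h5, h6⟩
  obtain ⟨N₀, hN₀⟩ := eventually_atTop.1 hN
  refine ⟨κ, hκ, N₀, fun N hNN X hX p hp hK h hh1 hhN u hu0 hu v hv1 hv => ?_⟩
  obtain ⟨g1, g2, g3, g4, g5, g6⟩ := hN₀ N hNN
  rw [pow_one] at g3
  have hN1R : (1 : ℝ) ≤ N := by exact_mod_cast g6
  have hN0R : (0 : ℝ) < N := by linarith
  rintro ⟨q, hq1, hq2, a, ha⟩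
  have hX0 : (0 : ℝ) < X := lt_of_lt_of_le (Real.exp_pos _) hX
  set Λ : ℝ := Real.log X with hΛd
  have hΛε : ε * N ≤ Λ := by
    rw [hΛd, ← Real.log_exp (ε * N)]
    exact Real.log_le_log (Real.exp_pos _) hX
  have hXΛ : (X : ℝ) = Real.exp Λ := by rw [hΛd, Real.exp_log hX0]
  have g41 : Λ₀ ≤ Λ := ((le_max_left _ _).trans (le_max_left _ _)).trans (g4.trans hΛε)
  have g42 : 2 * Dl ≤ Λ := ((le_max_right _ _).trans (le_max_left _ _)).trans (g4.trans hΛε)
  have g43 : 3 ≤ Λ := (le_max_right _ _).trans (g4.trans hΛε)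
  set L : ℝ := (N : ℝ) ^ A + Λ with hL
  have hNA1 : 1 ≤ (N : ℝ) ^ A := one_le_pow₀ hN1R
  have hL1 : 1 ≤ L := by rw [hL]; linarith
  have hL0 : 0 < L := by linarith
  have hX1 : (1 : ℝ) ≤ X := by
    rw [hXΛ]; exact Real.one_le_exp (by linarith)
  have hv0 : (0 : ℝ) < v := by exact_mod_cast hv1
  have hv1R : (1 : ℝ) ≤ v := by exact_mod_cast hv1
  have hq1R : (1 : ℝ) ≤ q := by exact_mod_cast hq1
  have hh1R : (1 : ℝ) ≤ h := by exact_mod_cast hh1
  have hhNR : (h : ℝ) ≤ N := by exact_mod_cast hhN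
  have hu1 : (1 : ℝ) ≤ |(u : ℝ)| := by exact_mod_cast Int.one_le_abs hu0
  -- the inequality
  set Q : ℤ := q * h * u * KK b p with hQ
  have hQ0 : Q ≠ 0 := by
    rw [hQ]
    refine mul_ne_zero (mul_ne_zero (mul_ne_zero ?_ ?_) hu0) hK
    · exact_mod_cast (by omega : q ≠ 0)
    · exact_mod_cast (by omega : h ≠ 0)
  have ha2 : |x * Q - ((a * v : ℤ) : ℝ)| ≤ v * (L ^ C / X) := by
    have e1 : x * Q - ((a * v : ℤ) : ℝ) = v * (q * (h * KK b p * (u / v * x)) - a) := by
      rw [hQ]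
      push_cast
      field_simp
    rw [e1, abs_mul, abs_of_pos hv0]
    apply mul_le_mul_of_nonneg_left _ hv0.le
    refine ha.trans ?_
    apply div_le_div_of_nonneg_left (by positivity) hX0
    exact le_self_pow₀ hX1 (by omega)
  rcases le_or_gt Λ (Real.exp (κ₁ * N)) with hcase | hcase
  · -- the subspace theorem
    have hLe : L ≤ Real.exp (2 * κ₁ * N) := by
      have e1 : Real.exp (2 * κ₁ * N) = Real.exp (κ₁ * N) * Real.exp (κ₁ * N) := by
        rw [← Real.exp_add]; congr 1; ring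
      rw [e1, hL]
      nlinarith
    have hLC : L ^ C ≤ Real.exp (2 * C * κ₁ * N) := by
      calc L ^ C ≤ (Real.exp (2 * κ₁ * N)) ^ C := pow_le_pow_left₀ hL0.le hLe _
        _ = _ := by rw [← Real.exp_nat_mul]; congr 1; ring
    have h1 := hD N g5 p hp (fun j => q * h * u * sg j) (by
      intro j
      push_cast
      rw [abs_mul, abs_mul, abs_mul]
      have e0 : |((sg j : ℤ) : ℝ)| = 1 := by rw [← Int.cast_abs, abs_sg, Int.cast_one]
      rw [e0, mul_one, abs_of_pos (by linarith : (0 : ℝ) < q), abs_of_pos (by linarith : (0 : ℝ) < h)]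
      calc (q : ℝ) * h * |(u : ℝ)| ≤ Real.exp (2 * C * κ₁ * N) * Real.exp (κ₁ * N) * Real.exp (κ * N) := by
            gcongr
            · exact hq2.trans hLC
            · exact hhNR.trans g3
        _ = Real.exp ((2 * C * κ₁ + κ₁ + κ) * N) := by
            rw [← Real.exp_add, ← Real.exp_add]; congr 1; ring
        _ ≤ Real.exp (κ₀ * N) := by
            apply Real.exp_le_exp.2
            apply mul_le_mul_of_nonneg_right _ hN0R.le
            have : κ = μ / 8 := hκd
            linarith) (by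
      have e1 : ∑ j : Fin (2 * s), (q : ℤ) * h * u * sg j * (b : ℤ) ^ p j = Q := by
        rw [hQ]; unfold KK; rw [mul_sum]
        exact sum_congr rfl fun j _ => by ring
      rw [e1]
      exact hQ0) (a * v)
    have e2 : x * ∑ j : Fin (2 * s), (((q : ℤ) * h * u * sg j : ℤ) : ℝ) * (b : ℝ) ^ p j = x * Q := by
      rw [hQ]; unfold KK; push_cast; rw [mul_sum, mul_sum, mul_sum]
      exact sum_congr rfl fun j _ => by ring
    rw [e2] at h1
    have h2 : (v : ℝ) * (L ^ C / X) ≤ Real.exp (-(ε / 2 * N)) := by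
      calc (v : ℝ) * (L ^ C / X) ≤ Real.exp (κ * N) * (Real.exp (2 * C * κ₁ * N) / Real.exp (ε * N)) := by
            gcongr
        _ = Real.exp ((κ + 2 * C * κ₁ - ε) * N) := by
            rw [← Real.exp_sub, ← Real.exp_add]; congr 1; ring
        _ ≤ _ := by
            apply Real.exp_le_exp.2
            have h3 : (κ + 2 * C * κ₁ - ε) * N ≤ (-(ε / 2)) * N := by
              apply mul_le_mul_of_nonneg_right _ hN0R.le
              have : κ = μ / 8 := hκd
              linarith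
            linarith
    linarith
  · -- Liouville
    have hNΛ : (N : ℝ) ≤ Real.log Λ / κ₁ := by
      rw [le_div_iff₀ hκ₁]
      have := Real.log_le_log (Real.exp_pos _) hcase.le
      rw [Real.log_exp] at this
      linarith
    have hlogΛ : 0 ≤ Real.log Λ := Real.log_nonneg (by linarith)
    have hLΛ : L ≤ 2 * Λ := by rw [hL]; linarith
    have hlog2 : Real.log 2 ≤ 1 := by
      have := Real.log_two_lt_d9
      linarith
    have hlogL : Real.log L ≤ 1 + Real.log Λ := by
      have h1 := Real.log_le_log hL0 hLΛ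
      rw [Real.log_mul (by norm_num) (by linarith)] at h1
      linarith
    have key := hΛ₀ Λ g41
    have hDl2 : Λ / (2 * Dl) ≤ Λ / 2 := by
      apply div_le_div_of_nonneg_left (by linarith) (by norm_num)
      linarith
    -- the approximation is good
    have hQ1 : (1 : ℝ) ≤ |(Q : ℝ)| := by exact_mod_cast Int.one_le_abs hQ0
    have hN3 : (1 + κ + Real.log b) * N ≤ (1 + κ + Real.log b) / κ₁ * (1 + Real.log Λ) := by
      rw [div_mul_eq_mul_div, mul_div_assoc]
      apply mul_le_mul_of_nonneg_left _ (by positivity)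
      refine hNΛ.trans ?_
      gcongr
      linarith
    have h3 : |x - ((a * v : ℤ) : ℝ) / Q| ≤ Real.exp (-(Λ / 2)) := by
      have e1 : x - ((a * v : ℤ) : ℝ) / Q = (x * Q - ((a * v : ℤ) : ℝ)) / Q := by
        have : (Q : ℝ) ≠ 0 := by exact_mod_cast hQ0
        field_simp
      rw [e1, abs_div]
      refine (div_le_self (abs_nonneg _) hQ1).trans (ha2.trans ?_)
      have h4 : (v : ℝ) * (L ^ C / X) ≤ Real.exp (κ * N + C * (1 + Real.log Λ) - Λ) := by
        have h5 : L ^ C ≤ Real.exp (C * (1 + Real.log Λ)) := by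
          rw [← Real.exp_log (show 0 < L ^ C by positivity), Real.log_pow]
          apply Real.exp_le_exp.2
          exact mul_le_mul_of_nonneg_left hlogL (Nat.cast_nonneg _)
        rw [Real.exp_sub, Real.exp_add, ← hXΛ, mul_div_assoc]
        gcongr
      refine h4.trans (Real.exp_le_exp.2 ?_)
      have h6 : κ * N ≤ (1 + κ + Real.log b) / κ₁ * (1 + Real.log Λ) := by
        refine le_trans ?_ hN3
        apply mul_le_mul_of_nonneg_right _ hN0R.le
        linarith
      have h7 : κ * N + C * (1 + Real.log Λ) ≤ c * (1 + Real.log Λ) := by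
        rw [hc]
        have : 0 ≤ Real.log (2 * s) * (1 + Real.log Λ) := by positivity
        nlinarith
      linarith
    have h8 := hDl (a * v) Q (Λ / 2) (by linarith) hQ0 h3
    have h9 : Real.log |(Q : ℝ)| ≤ c * (1 + Real.log Λ) := by
      have e1 : |(Q : ℝ)| = q * h * |(u : ℝ)| * |(KK b p : ℝ)| := by
        rw [hQ]
        push_cast
        rw [abs_mul, abs_mul, abs_mul, abs_of_pos (by linarith : (0 : ℝ) < q),
          abs_of_pos (by linarith : (0 : ℝ) < h)]
      have hK1 : (1 : ℝ) ≤ |(KK b p : ℝ)| := by exact_mod_cast Int.one_le_abs hK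
      have hKle := KK_le b hb p N hp
      rw [e1, Real.log_mul (by positivity) (by positivity), Real.log_mul (by positivity) (by positivity),
        Real.log_mul (by positivity) (by positivity)]
      have l1 : Real.log q ≤ C * (1 + Real.log Λ) := by
        have := Real.log_le_log (by linarith : (0 : ℝ) < q) hq2
        rw [Real.log_pow] at this
        exact this.trans (mul_le_mul_of_nonneg_left hlogL (Nat.cast_nonneg _))
      have l2 : Real.log h ≤ N := by
        have := Real.log_le_sub_one_of_pos (by linarith : (0 : ℝ) < h)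
        linarith
      have l3 : Real.log |(u : ℝ)| ≤ κ * N := by
        have := Real.log_le_log (by linarith) hu
        rwa [Real.log_exp] at this
      have l4 : Real.log |(KK b p : ℝ)| ≤ Real.log (2 * s) + N * Real.log b := by
        have := Real.log_le_log (by linarith) hKle
        push_cast at this
        rwa [Real.log_mul (by positivity) (by positivity), Real.log_pow] at this
      have l5 : Real.log (2 * s) ≤ Real.log (2 * s) * (1 + Real.log Λ) := by
        nlinarith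
      have e2 : c * (1 + Real.log Λ) = C * (1 + Real.log Λ) + Real.log (2 * s) * (1 + Real.log Λ) +
          (1 + κ + Real.log b) / κ₁ * (1 + Real.log Λ) := by rw [hc]; ring
      rw [e2]
      have e3 : (1 + κ + Real.log b) * N = N + κ * N + N * Real.log b := by ring
      linarith
    have h10 : Λ / 2 / Dl = Λ / (2 * Dl) := by rw [div_div]
    linarith

end Pool.Agent.V5helper26.PM
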