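import Mathlib
import Pool.Agent.V5helper26.PM.Minor
import Pool.Agent.V5helper26.PM.Far

/-!
# The exponential sums over integers and primes
-/

set_option autoImplicit false

namespace Pool.Agent.V5helper26.PM

open Finset Filter Topology Polynomial
open Pool.Agent.H807R2.Dav (ee norm_ee)
open Pool.Agent.R486.PD (Near)
open Pool.Agent.R361.MA (mk_ee')
open Pool.Agent.H373R2.NB (IW_all)

lemma unif {ι : Type} [DecidableEq ι] (S : Finset ι) (P : ι → ℝ → ℕ → Prop)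
    (mono : ∀ i κ κ' N, κ' ≤ κ → P i κ N → P i κ' N)
    (h : ∀ i ∈ S, ∃ κ : ℝ, 0 < κ ∧ ∃ N₀ : ℕ, ∀ N : ℕ, N₀ ≤ N → P i κ N) :
    ∃ κ : ℝ, 0 < κ ∧ ∃ N₀ : ℕ, ∀ N : ℕ, N₀ ≤ N → ∀ i ∈ S, P i κ N := by
  induction S using Finset.induction_on with
  | empty => exact ⟨1, one_pos, 0, fun N _ i hi => absurd hi (notMem_empty i)⟩
  | insert a S ha ih =>
    obtain ⟨κ₁, hκ₁, N₁, h₁⟩ := ih fun i hi => h i (mem_insert_of_mem hi)
    obtain ⟨κ₂, hκ₂, N₂, h₂⟩ := h a (mem_insert_self a S)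
    refine ⟨min κ₁ κ₂, lt_min hκ₁ hκ₂, max N₁ N₂, fun N hN i hi => ?_⟩
    rw [mem_insert] at hi
    rcases hi with rfl | hi
    · exact mono _ _ _ _ (min_le_right _ _) (h₂ N ((le_max_right _ _).trans hN))
    · exact mono _ _ _ _ (min_le_left _ _) (h₁ N ((le_max_left _ _).trans hN) i hi)

lemma evlog (c : ℝ) (k : ℕ) : ∀ᶠ X : ℕ in atTop, c * (Real.log X) ^ k ≤ X := by
  have h1 : (fun u : ℝ => c * (Real.log u) ^ k) =o[atTop] (fun u : ℝ => u) :=
    (Real.isLittleO_pow_log_id_atTop (n := k)).const_mul_left c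
  have h2 := (h1.comp_tendsto tendsto_natCast_atTop_atTop).bound (c := 1) one_pos
  filter_upwards [h2] with X hX
  simp only [Function.comp, Real.norm_eq_abs, one_mul] at hX
  rw [abs_of_nonneg (a := (X : ℝ)) (Nat.cast_nonneg _)] at hX
  exact (le_abs_self _).trans hX

/-- a Weyl sum over an interval which is not small -/
lemma int_inv (d : ℕ) (hd : 1 ≤ d) (s : ℕ) : ∃ C N₀ : ℕ, ∀ N : ℕ, N₀ ≤ N → ∀ f : ℝ[X],
    f.natDegree ≤ d → ∀ M : ℕ, 1 ≤ M → M / (N : ℝ) ^ s < ‖∑ m ∈ range M, ee (f.eval (m : ℝ))‖ →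
    Near d M (((N : ℝ) ^ (s + 1) + Real.log M) ^ C) (f.coeff d) := by
  obtain ⟨c, m, hc, hI⟩ := IW_all d hd
  refine ⟨m + 1, max 1 (d.factorial * c), fun N hN f hf M hM hS => ?_⟩
  have hN1 : 1 ≤ N := (le_max_left _ _).trans hN
  have hNc : d.factorial * c ≤ N := (le_max_right _ _).trans hN
  have hN1R : (1 : ℝ) ≤ N := by exact_mod_cast hN1
  have hM1R : (1 : ℝ) ≤ M := by exact_mod_cast hM
  have hNcR : (d.factorial : ℝ) * c ≤ N := by exact_mod_cast hNc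
  have hlogM : 0 ≤ Real.log M := Real.log_nonneg hM1R
  have hNs : 1 ≤ (N : ℝ) ^ s := one_le_pow₀ hN1R
  obtain ⟨q, hq1, hq2, a, ha⟩ := hI M ((N : ℝ) ^ s) _ _ hM hNs (Ph_real d f hf) (by
    rw [div_lt_iff₀ (by positivity)] at hS
    rw [mul_comm]
    refine hS.le.trans (le_of_eq ?_)
    congr 2
    exact sum_congr rfl fun n _ => (mk_ee' _).symm)
  have hfac : (1 : ℝ) ≤ (d.factorial : ℝ) := by exact_mod_cast Nat.factorial_pos d
  have hc0 : (0 : ℝ) < c := by exact_mod_cast hc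
  have hbig : (d.factorial : ℝ) * (c * ((N : ℝ) ^ s) ^ m) ≤ ((N : ℝ) ^ (s + 1) + Real.log M) ^ (m + 1) := by
    calc (d.factorial : ℝ) * (c * ((N : ℝ) ^ s) ^ m) = (d.factorial * c) * ((N : ℝ) ^ s) ^ m := by ring
      _ ≤ N * ((N : ℝ) ^ s) ^ m := by gcongr
      _ ≤ (N : ℝ) ^ (s + 1) * ((N : ℝ) ^ (s + 1)) ^ m := by
          gcongr
          · exact le_self_pow₀ hN1R (by omega)
          · omega
      _ = ((N : ℝ) ^ (s + 1)) ^ (m + 1) := by rw [pow_succ ((N : ℝ) ^ (s + 1)) m]; ring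
      _ ≤ _ := pow_le_pow_left₀ (by positivity) (by linarith) _
  refine ⟨q * d.factorial, Nat.mul_pos hq1 (Nat.factorial_pos d), ?_, a, ?_⟩
  · refine le_trans ?_ hbig
    push_cast
    rw [mul_comm]
    gcongr
  · have e1 : ((q * d.factorial : ℕ) : ℝ) * f.coeff d = q * ((d.factorial : ℝ) * f.coeff d) := by
      push_cast; ring
    rw [e1]
    refine ha.trans ?_
    have hMd : (0 : ℝ) < (M : ℝ) ^ d := by positivity
    rw [div_le_div_iff_of_pos_right hMd]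
    refine le_trans ?_ hbig
    exact le_mul_of_one_le_left (by positivity) hfac

/-- **The exponential sums over integers and primes.** -/
theorem expsum (x : ℝ) (hx : IsAlgebraic ℚ x) (hirr : Irrational x) (B d s : ℕ) (hs : 1 ≤ s) (ε : ℝ)
    (hε : 0 < ε) :
    ∃ κ : ℝ, 0 < κ ∧ ∃ N₀ : ℕ, ∀ N : ℕ, N₀ ≤ N → ∀ b : ℕ, 2 ≤ b → b ≤ B → ∀ h : ℕ, 1 ≤ h → h ≤ N →
      ∀ p : Fin (2 * s) → ℕ, (∀ j, p j ≤ N) → KK b p ≠ 0 →
      ∀ P : ℝ[X], 1 ≤ P.natDegree → P.natDegree ≤ d → ∀ u : ℤ, u ≠ 0 → |(u : ℝ)| ≤ Real.exp (κ * N) →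
      ∀ v : ℕ, 1 ≤ v → (v : ℝ) ≤ Real.exp (κ * N) → P.leadingCoeff = u / v * x →
      ∀ X : ℕ, Real.exp (ε * N) ≤ X →
        ‖∑ m ∈ range X, ee (h * KK b p * P.eval (m : ℝ))‖ ≤ X / (N : ℝ) ^ s ∧
        ‖∑ n ∈ Icc 1 X, ((ArithmeticFunction.vonMangoldt n : ℝ) : ℂ) * ee (h * KK b p * P.eval (n : ℝ))‖ ≤
          X / (N : ℝ) ^ s := by
  classical
  have hA : ∀ d' : ℕ, ∃ C N₀ : ℕ, 1 ≤ d' → ∀ N : ℕ, N₀ ≤ N → ∀ f : ℝ[X],
      f.natDegree ≤ d' → ∀ M : ℕ, 1 ≤ M → M / (N : ℝ) ^ s < ‖∑ m ∈ range M, ee (f.eval (m : ℝ))‖ →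
      Near d' M (((N : ℝ) ^ (s + 1) + Real.log M) ^ C) (f.coeff d') := by
    intro d'
    rcases Nat.eq_zero_or_pos d' with h0 | h0
    · exact ⟨0, 0, fun h => by omega⟩
    · obtain ⟨C, N₀, h⟩ := int_inv d' h0 s
      exact ⟨C, N₀, fun _ => h⟩
  have hB : ∀ d' : ℕ, ∃ C W₀ : ℕ, 1 ≤ d' → ∀ f : ℝ[X], f.natDegree ≤ d' → ∀ (N : ℕ) (L : ℝ),
      W₀ ≤ L → Real.log N ≤ L → L ^ C ≤ N → N / L ≤ ‖SL f N‖ → Near d' N (L ^ C) (f.coeff d') := by
    intro d'
    rcases Nat.eq_zero_or_pos d' with h0 | h0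
    · exact ⟨0, 0, fun h => by omega⟩
    · obtain ⟨C, N₀, h⟩ := minorV d' h0
      exact ⟨C, N₀, fun _ => h⟩
  choose C1 N1 hC1 using hA
  choose C2 W2 hC2 using hB
  set Cm : ℕ → ℕ := fun d' => max (C1 d') (C2 d') with hCm
  -- far
  have hfar := unif ((Icc 2 B) ×ˢ (Icc 1 d)) (fun (i : ℕ × ℕ) (κ : ℝ) (N : ℕ) =>
      ∀ X : ℕ, Real.exp (ε * N) ≤ X →
      ∀ p : Fin (2 * s) → ℕ, (∀ j, p j ≤ N) → KK i.1 p ≠ 0 → ∀ h : ℕ, 1 ≤ h → h ≤ N →
      ∀ u : ℤ, u ≠ 0 → |(u : ℝ)| ≤ Real.exp (κ * N) → ∀ v : ℕ, 1 ≤ v → (v : ℝ) ≤ Real.exp (κ * N) →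
      ¬ Near i.2 X (((N : ℝ) ^ (s + 1) + Real.log X) ^ (Cm i.2)) (h * KK i.1 p * (u / v * x)))
    (by
      intro i κ κ' N hκ hP X hX p hp hK h hh1 hh2 u hu0 hu v hv1 hv
      have hle : Real.exp (κ' * N) ≤ Real.exp (κ * N) :=
        Real.exp_le_exp.2 (mul_le_mul_of_nonneg_right hκ (Nat.cast_nonneg _))
      exact hP X hX p hp hK h hh1 hh2 u hu0 (hu.trans hle) v hv1 (hv.trans hle))
    (by
      intro i hi
      rw [mem_product, mem_Icc, mem_Icc] at hi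
      exact far i.1 hi.1.1 x hx hirr s hs i.2 hi.2.1 (Cm i.2) (s + 1) ε hε)
  obtain ⟨κ, hκ, N3, hfar⟩ := hfar
  -- large `X`
  set η : ℝ := max 1 (1 / ε) with hη
  have hη1 : 1 ≤ η := le_max_left _ _
  set Ct : ℕ := (range (d + 1)).sup C2 with hCt
  obtain ⟨X₀, hX₀⟩ := eventually_atTop.1 (evlog ((2 * η ^ (s + 1)) ^ Ct) ((s + 1) * Ct))
  have hlarge : ∀ᶠ N : ℕ in atTop, (max (X₀ : ℝ) 3 ≤ Real.exp (ε * N)) := by
    have t2 : Tendsto (fun N : ℕ => ε * (N : ℝ)) atTop atTop :=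
      tendsto_natCast_atTop_atTop.const_mul_atTop hε
    exact (Real.tendsto_exp_atTop.comp t2).eventually_ge_atTop _
  obtain ⟨N4, hN4⟩ := eventually_atTop.1 hlarge
  refine ⟨κ, hκ, max (max ((range (d + 1)).sup N1) ((range (d + 1)).sup W2)) (max (max N3 N4) 1),
    fun N hN b hb2 hbB h hh1 hhN p hp hK P hP1 hPd u hu0 hu v hv1 hv hlead X hX => ?_⟩
  have a1 : (range (d + 1)).sup N1 ≤ N := ((le_max_left _ _).trans (le_max_left _ _)).trans hN
  have a2 : (range (d + 1)).sup W2 ≤ N := ((le_max_right _ _).trans (le_max_left _ _)).trans hN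
  have a3 : N3 ≤ N := (((le_max_left _ _).trans (le_max_left _ _)).trans (le_max_right _ _)).trans hN
  have a4 : N4 ≤ N := (((le_max_right _ _).trans (le_max_left _ _)).trans (le_max_right _ _)).trans hN
  have a5 : 1 ≤ N := ((le_max_right _ _).trans (le_max_right _ _)).trans hN
  set d' := P.natDegree with hd'
  have hd'r : d' ∈ range (d + 1) := mem_range.2 (by omega)
  have b1 : N1 d' ≤ N := (Finset.le_sup (f := N1) hd'r).trans a1
  have b2 : W2 d' ≤ N := (Finset.le_sup (f := W2) hd'r).trans a2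
  have hN1R : (1 : ℝ) ≤ N := by exact_mod_cast a5
  have hexp := hN4 N a4
  have hX₀X : X₀ ≤ X := by
    have : (X₀ : ℝ) ≤ X := (le_max_left _ _).trans (hexp.trans hX)
    exact_mod_cast this
  have hX3 : (3 : ℝ) ≤ X := (le_max_right _ _).trans (hexp.trans hX)
  have hX1 : 1 ≤ X := by
    have : (1 : ℝ) ≤ X := by linarith
    exact_mod_cast this
  have hX0R : (0 : ℝ) < X := by linarith
  set L : ℝ := (N : ℝ) ^ (s + 1) + Real.log X with hL
  have hlogX : 1 ≤ Real.log X := by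
    rw [← Real.log_exp 1]
    apply Real.log_le_log (Real.exp_pos _)
    have := Real.exp_one_lt_d9
    linarith
  have hNs1 : 1 ≤ (N : ℝ) ^ (s + 1) := one_le_pow₀ hN1R
  have hL1 : 1 ≤ L := by rw [hL]; linarith
  have hNL : (N : ℝ) ≤ (N : ℝ) ^ (s + 1) := le_self_pow₀ hN1R (by omega)
  have hfarN := hfar N a3 (b, d') (by
    rw [mem_product, mem_Icc, mem_Icc]
    exact ⟨⟨hb2, hbB⟩, hP1, hPd⟩) X hX p hp hK h hh1 hhN u hu0 hu v hv1 hv
  simp only at hfarN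
  set f : ℝ[X] := C ((h : ℝ) * KK b p) * P with hf
  have hfd : f.natDegree ≤ d' := natDegree_C_mul_le _ _
  have hfc : f.coeff d' = h * KK b p * (u / v * x) := by
    rw [hf, coeff_C_mul, hd', coeff_natDegree, hlead]
  have hfe : ∀ t : ℝ, f.eval t = h * KK b p * P.eval t := by
    intro t; rw [hf, eval_mul, eval_C]
  have hmono : ∀ C' : ℕ, C' ≤ Cm d' → ¬ Near d' X (L ^ C') (f.coeff d') := by
    intro C' hC' hcon
    rw [hfc] at hcon
    exact hfarN (hcon.mono (pow_le_pow_right₀ hL1 hC'))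
  constructor
  · by_contra hcon
    push Not at hcon
    refine hmono (C1 d') (le_max_left _ _) (hC1 d' hP1 N b1 f hfd X hX1 ?_)
    refine hcon.trans_le (le_of_eq ?_)
    congr 1
    exact sum_congr rfl fun m _ => by rw [hfe]
  · by_contra hcon
    push Not at hcon
    refine hmono (C2 d') (le_max_right _ _) (hC2 d' hP1 f hfd X L ?_ ?_ ?_ ?_)
    · have : (W2 d' : ℝ) ≤ N := by exact_mod_cast b2
      rw [hL]; linarith
    · rw [hL]; linarith
    · -- `L ^ C ≤ X`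
      have hNlog : (N : ℝ) ≤ η * Real.log X := by
        have h1 := Real.log_le_log (Real.exp_pos _) hX
        rw [Real.log_exp] at h1
        have h2 : (N : ℝ) ≤ 1 / ε * Real.log X := by
          rw [one_div, inv_mul_eq_div, le_div_iff₀ hε]
          linarith
        refine h2.trans ?_
        apply mul_le_mul_of_nonneg_right (le_max_right _ _) (by linarith)
      have hLle : L ≤ 2 * η ^ (s + 1) * (Real.log X) ^ (s + 1) := by
        have h1 : (N : ℝ) ^ (s + 1) ≤ η ^ (s + 1) * (Real.log X) ^ (s + 1) := by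
          rw [← mul_pow]
          exact pow_le_pow_left₀ (by linarith) hNlog _
        have h2 : Real.log X ≤ η ^ (s + 1) * (Real.log X) ^ (s + 1) := by
          calc Real.log X ≤ (Real.log X) ^ (s + 1) := le_self_pow₀ hlogX (by omega)
            _ ≤ _ := le_mul_of_one_le_left (by positivity) (one_le_pow₀ hη1)
        rw [hL]; linarith
      have hCle : C2 d' ≤ Ct := Finset.le_sup (f := C2) hd'r
      calc L ^ C2 d' ≤ L ^ Ct := pow_le_pow_right₀ hL1 hCle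
        _ ≤ (2 * η ^ (s + 1) * (Real.log X) ^ (s + 1)) ^ Ct := pow_le_pow_left₀ (by linarith) hLle _
        _ = (2 * η ^ (s + 1)) ^ Ct * (Real.log X) ^ ((s + 1) * Ct) := by rw [mul_pow, ← pow_mul]
        _ ≤ X := hX₀ X hX₀X
    · have h1 : (X : ℝ) / L ≤ X / (N : ℝ) ^ s := by
        apply div_le_div_of_nonneg_left hX0R.le (by positivity)
        have : (N : ℝ) ^ s ≤ (N : ℝ) ^ (s + 1) := pow_le_pow_right₀ hN1R (by omega)
        rw [hL]; linarith
      refine h1.trans (hcon.le.trans (le_of_eq ?_))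
      unfold SL
      congr 1
      exact sum_congr rfl fun m _ => by rw [hfe]

end Pool.Agent.V5helper26.PM
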