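import Mathlib
import Pool.Agent.V5helper26.PM.Abs
import Pool.Agent.V5helper26.PM.Box

/-!
# Joint equidistribution in a weighted family of vectors
-/

set_option autoImplicit false

namespace Pool.Agent.V5helper26.PM

open Finset Filter Topology
open Pool.Agent.H469R2.NK (e norm_e e_add e_zero conj_e)
open Pool.Agent.R485.Mult (sg abs_sg pow_expand count_vanish)

open Classical in
/-- the vectors `(z_j b ^ i)_j` are jointly equidistributed for `i ≤ n ≤ N`, with an error of at most `E` -/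
def JDisc (b N : ℕ) {k : ℕ} (E : ℝ) (z : Fin k → ℝ) : Prop :=
  ∀ n : ℕ, n ≤ N → ∀ α β : Fin k → ℝ, (∀ j, 0 ≤ α j) → (∀ j, α j ≤ β j) → (∀ j, β j ≤ 1) →
    |(((Icc 1 n).filter (fun i : ℕ => ∀ j, α j ≤ Int.fract (z j * (b : ℝ) ^ i) ∧
      Int.fract (z j * (b : ℝ) ^ i) < β j)).card : ℝ) - n * ∏ j, (β j - α j)| ≤ E

/-- a weighted union bound -/
lemma wunion {ι κ : Type} [DecidableEq ι] (S Bd : Finset ι) (hBd : Bd ⊆ S) (I : Finset κ)
    (Ex : κ → Finset ι) (hEx : ∀ i, Ex i ⊆ S) (c : ι → ℝ) (hc : ∀ m ∈ S, 0 ≤ c m)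
    (h : ∀ m ∈ Bd, ∃ i ∈ I, m ∈ Ex i) : ∑ m ∈ Bd, c m ≤ ∑ i ∈ I, ∑ m ∈ Ex i, c m := by
  have h1 : ∑ i ∈ I, ∑ m ∈ Ex i, c m = ∑ m ∈ S, ∑ i ∈ I, (if m ∈ Ex i then c m else 0) := by
    rw [sum_comm]
    refine sum_congr rfl fun i _ => ?_
    rw [← sum_filter]
    refine sum_congr ?_ fun _ _ => rfl
    ext m
    rw [mem_filter]
    exact ⟨fun h => ⟨hEx i h, h⟩, fun h => h.2⟩
  rw [h1]
  have hnn : ∀ m ∈ S, ∀ i, 0 ≤ (if m ∈ Ex i then c m else 0) := by
    intro m hm i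
    split_ifs
    · exact hc m hm
    · exact le_rfl
  calc ∑ m ∈ Bd, c m ≤ ∑ m ∈ Bd, ∑ i ∈ I, (if m ∈ Ex i then c m else 0) := by
        refine sum_le_sum fun m hm => ?_
        obtain ⟨i, hi, hmi⟩ := h m hm
        calc c m = (if m ∈ Ex i then c m else 0) := by rw [if_pos hmi]
          _ ≤ _ := single_le_sum (f := fun i => if m ∈ Ex i then c m else 0)
              (fun i _ => hnn m (hBd hm) i) hi
    _ ≤ _ := sum_le_sum_of_subset_of_nonneg hBd fun m hm _ => sum_nonneg fun i _ => hnn m hm i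

open Classical in
/-- **The total weight of the exceptional members of a weighted family of vectors.** -/
theorem main_joint (k B : ℕ) (δ : ℝ) (hδ : 0 < δ) (A : ℕ) :
    ∃ s : ℕ, 1 ≤ s ∧ ∃ N₀ : ℕ, ∀ N : ℕ, N₀ ≤ N → ∀ {ι : Type} (S : Finset ι) (c : ι → ℝ)
      (z : ι → Fin k → ℝ),
      (∀ m ∈ S, 0 ≤ c m) → ∀ W : ℝ, ∑ m ∈ S, c m ≤ W →
      (∀ b : ℕ, 2 ≤ b → b ≤ B → ∀ g : Fin k → ℤ, g ≠ 0 → (∀ j, |g j| ≤ N) →
        ∀ p : Fin (2 * s) → ℕ, (∀ j, p j ≤ N) → KK b p ≠ 0 →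
        ‖∑ m ∈ S, (c m : ℂ) * e (KK b p * ∑ j, (g j : ℝ) * z m j)‖ ≤ W / N ^ s) →
      (∑ m ∈ S.filter (fun m => ¬ ∀ b : ℕ, 2 ≤ b → b ≤ B → JDisc b N ((N : ℝ) ^ (1 / 2 + δ)) (z m)),
        c m) * N ^ A ≤ W := by
  set s : ℕ := max 1 ⌈((A + k : ℕ) + 3 : ℝ) / δ⌉₊ with hs
  have hs1 : 1 ≤ s := le_max_left _ _
  have hsδ : ((A + k : ℕ) : ℝ) + 3 ≤ s * δ := by
    have h0 : ⌈((A + k : ℕ) + 3 : ℝ) / δ⌉₊ ≤ s := le_max_right _ _
    have h1 : ((A + k : ℕ) + 3 : ℝ) / δ ≤ s := (Nat.le_ceil _).trans (Nat.cast_le.2 h0)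
    rwa [div_le_iff₀ hδ] at h1
  set C : ℕ := s ^ (2 * s) * (2 * (2 * s) + 1) ^ (2 * s) + 1 with hC
  have hl2 : ∀ᶠ N : ℕ in atTop, ((k : ℝ) + 1) * (2 * 3 ^ k + (5 + 2 * Real.log N) ^ k) ≤
      (N : ℝ) ^ (δ / 2) := by
    have h0 : (fun u : ℝ => (1 + Real.log u) ^ k) =o[atTop] (fun u : ℝ => u ^ (δ / 2)) := by
      have h1 : (fun u : ℝ => 1 + Real.log u) =O[atTop] (fun u : ℝ => Real.log u) := by
        apply Asymptotics.IsBigO.add _ (Asymptotics.isBigO_refl _ _)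
        exact (Asymptotics.isLittleO_const_left.2 (Or.inr
          (tendsto_norm_atTop_atTop.comp Real.tendsto_log_atTop))).isBigO
      refine (h1.pow k).trans_isLittleO ?_
      have h2 := isLittleO_log_rpow_rpow_atTop (s := δ / 2) (k : ℝ) (by positivity)
      refine h2.congr_left fun u => ?_
      rw [Real.rpow_natCast]
    have h2 := (h0.comp_tendsto tendsto_natCast_atTop_atTop).bound
      (c := 1 / (((k : ℝ) + 1) * (2 * 3 ^ k + 5 ^ k))) (by positivity)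
    filter_upwards [h2, eventually_ge_atTop 1] with N hN hN1
    have hN1' : (1 : ℝ) ≤ N := by exact_mod_cast hN1
    have hlog : 0 ≤ Real.log N := Real.log_nonneg hN1'
    simp only [Function.comp, Real.norm_eq_abs] at hN
    rw [abs_of_nonneg (by positivity), abs_of_nonneg (by positivity)] at hN
    rw [one_div, inv_mul_eq_div, le_div_iff₀ (by positivity)] at hN
    refine le_trans ?_ hN
    have h3 : (5 + 2 * Real.log N) ^ k ≤ 5 ^ k * (1 + Real.log N) ^ k := by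
      rw [← mul_pow]
      apply pow_le_pow_left₀ (by positivity)
      linarith
    have h4 : (1 : ℝ) ≤ (1 + Real.log N) ^ k := one_le_pow₀ (by linarith)
    have h5 : (2 : ℝ) * 3 ^ k ≤ 2 * 3 ^ k * (1 + Real.log N) ^ k := le_mul_of_one_le_right (by positivity) h4
    calc ((k : ℝ) + 1) * (2 * 3 ^ k + (5 + 2 * Real.log N) ^ k) ≤
          ((k : ℝ) + 1) * (2 * 3 ^ k * (1 + Real.log N) ^ k + 5 ^ k * (1 + Real.log N) ^ k) :=
          mul_le_mul_of_nonneg_left (add_le_add h5 h3) (by positivity)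
      _ = _ := by ring
  obtain ⟨N2, hN2⟩ := eventually_atTop.1 hl2
  refine ⟨s, hs1, max N2 (max 1 (2 * 3 ^ k * B * C)), fun N hN ι S c z hc W hW hE => ?_⟩
  have hNc := hN2 N ((le_max_left _ _).trans hN)
  have hNd : 1 ≤ N := ((le_max_left _ _).trans (le_max_right _ _)).trans hN
  have hNe : 2 * 3 ^ k * B * C ≤ N := ((le_max_right _ _).trans (le_max_right _ _)).trans hN
  have hNR : (1 : ℝ) ≤ N := by exact_mod_cast hNd
  have hN0 : (0 : ℝ) < N := by linarith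
  have hW0 : 0 ≤ W := (sum_nonneg hc).trans hW
  set T : ℝ := (N : ℝ) ^ (1 / 2 + δ / 2) with hTd
  have hT0 : 0 < T := Real.rpow_pos_of_pos hN0 _
  have hTs : T ^ (2 * s) = (N : ℝ) ^ s * (N : ℝ) ^ (s * δ) := by
    rw [hTd, ← Real.rpow_natCast, ← Real.rpow_mul hN0.le, ← Real.rpow_natCast (N : ℝ) s,
      ← Real.rpow_add hN0]
    congr 1
    push_cast
    ring
  have hTs2 : (N : ℝ) ^ s * (N : ℝ) ^ (A + k + 3) ≤ T ^ (2 * s) := by
    rw [hTs]
    apply mul_le_mul_of_nonneg_left _ (by positivity)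
    rw [← Real.rpow_natCast]
    apply Real.rpow_le_rpow_of_exponent_le hNR
    push_cast
    push_cast at hsδ
    exact hsδ
  -- the exceptional sets
  set Gs : Finset (Fin k → ℤ) := (Fintype.piFinset (fun _ : Fin k => Icc (-(N : ℤ)) N)).filter (fun g => g ≠ 0)
    with hGs
  have hGc : (Gs.card : ℝ) ≤ (3 * N) ^ k := by
    have h1 : Gs.card ≤ (2 * N + 1) ^ k := by
      refine (card_filter_le _ _).trans (le_of_eq ?_)
      rw [Fintype.card_piFinset]
      simp only [prod_const, card_univ, Fintype.card_fin, Int.card_Icc]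
      congr 1
      omega
    have h2 : (Gs.card : ℝ) ≤ (2 * N + 1) ^ k := by exact_mod_cast h1
    refine h2.trans (pow_le_pow_left₀ (by positivity) (by linarith) _)
  set F : ℕ → (Fin k → ℤ) → ℕ → ι → ℂ := fun b g n m =>
    ∑ i ∈ Icc 1 n, e ((1 : ℕ) * (∑ j, (g j : ℝ) * z m j) * (b : ℝ) ^ i) with hF
  set Ex : ℕ × (Fin k → ℤ) × ℕ → Finset ι := fun i => S.filter (fun m => T < ‖F i.1 i.2.1 i.2.2 m‖) with hEx
  set I : Finset (ℕ × (Fin k → ℤ) × ℕ) := Icc 2 B ×ˢ (Gs ×ˢ range (N + 1)) with hI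
  have hEc : ∀ i ∈ I, ∑ m ∈ Ex i, c m ≤ W * C / N ^ (A + k + 3) := by
    rintro ⟨b, g, n⟩ hi
    rw [hI, mem_product, mem_product, mem_Icc, mem_range, hGs, mem_filter, Fintype.mem_piFinset] at hi
    obtain ⟨hb, ⟨hg1, hg0⟩, hn⟩ := hi
    simp only at hb hg1 hg0 hn
    have hgN : ∀ j, |g j| ≤ N := fun j => abs_le.2 (mem_Icc.1 (hg1 j))
    have h1 := moment_abs S c (fun m => ∑ j, (g j : ℝ) * z m j) hc W (W / N ^ s) hW (by positivity) b hb.1 s
      hs1 N 1 n (by omega) (by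
        intro p hp hK
        have h2 := hE b hb.1 hb.2 g hg0 hgN p hp hK
        refine le_trans (le_of_eq ?_) h2
        congr 1
        refine sum_congr rfl fun m _ => ?_
        rw [Nat.cast_one, one_mul])
    have h2 : (∑ m ∈ Ex (b, g, n), c m) * T ^ (2 * s) ≤
        ∑ m ∈ S, c m * ‖∑ i ∈ Icc 1 n, e ((1 : ℕ) * (∑ j, (g j : ℝ) * z m j) * (b : ℝ) ^ i)‖ ^ (2 * s) := by
      rw [sum_mul]
      calc ∑ m ∈ Ex (b, g, n), c m * T ^ (2 * s) ≤ ∑ m ∈ Ex (b, g, n), c m * ‖F b g n m‖ ^ (2 * s) := by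
            refine sum_le_sum fun m hm => ?_
            rw [hEx, mem_filter] at hm
            exact mul_le_mul_of_nonneg_left (pow_le_pow_left₀ hT0.le hm.2.le _) (hc m hm.1)
        _ ≤ ∑ m ∈ S, c m * ‖F b g n m‖ ^ (2 * s) :=
            sum_le_sum_of_subset_of_nonneg (filter_subset _ _) fun m hm _ =>
              mul_nonneg (hc m hm) (by positivity)
    have h3 : (N : ℝ) ^ (2 * s) * (W / N ^ s) = W * N ^ s := by
      have e2 : (N : ℝ) ^ (2 * s) = N ^ s * N ^ s := by ring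
      rw [e2]
      field_simp
    have h4 : (∑ m ∈ Ex (b, g, n), c m) * ((N : ℝ) ^ s * (N : ℝ) ^ (A + k + 3)) ≤ W * C * N ^ s := by
      refine (mul_le_mul_of_nonneg_left hTs2 ?_).trans (h2.trans (h1.trans ?_))
      · exact sum_nonneg fun m hm => hc m (filter_subset _ _ hm)
      · rw [hC, h3]
        push_cast
        linarith
    rw [le_div_iff₀ (by positivity)]
    have h5 : (∑ m ∈ Ex (b, g, n), c m) * (N : ℝ) ^ (A + k + 3) * N ^ s ≤ W * C * N ^ s := by linarith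
    exact le_of_mul_le_mul_right h5 (by positivity)
  have hsub : ∀ m ∈ S.filter (fun m => ¬ ∀ b : ℕ, 2 ≤ b → b ≤ B → JDisc b N ((N : ℝ) ^ (1 / 2 + δ)) (z m)),
      ∃ i ∈ I, m ∈ Ex i := by
    intro m hm
    rw [mem_filter] at hm
    obtain ⟨hmS, hbad⟩ := hm
    by_contra hcon
    push Not at hcon
    apply hbad
    intro b hb2 hbB n hn α β h0 h1 h2
    have hT : ∀ g : Fin k → ℤ, g ≠ 0 → (∀ j, |g j| ≤ N) →
        ‖∑ i ∈ Icc 1 n, e (∑ j, (g j : ℝ) * (z m j * (b : ℝ) ^ i))‖ ≤ T := by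
      intro g hg0 hgN
      by_contra hcon2
      push Not at hcon2
      refine hcon (b, g, n) ?_ ?_
      · rw [hI, mem_product, mem_product, mem_Icc, mem_range, hGs, mem_filter, Fintype.mem_piFinset]
        exact ⟨⟨hb2, hbB⟩, ⟨fun j => mem_Icc.2 (abs_le.1 (hgN j)), hg0⟩, Nat.lt_succ_of_le hn⟩
      · rw [hEx, mem_filter]
        refine ⟨hmS, ?_⟩
        rw [hF]
        simp only
        have : ∀ i : ℕ, ∑ j, (g j : ℝ) * (z m j * (b : ℝ) ^ i) =
            (1 : ℕ) * (∑ j, (g j : ℝ) * z m j) * (b : ℝ) ^ i := fun i => by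
          rw [Nat.cast_one, one_mul, sum_mul]
          exact sum_congr rfl fun j _ => by ring
        simp_rw [this] at hcon2
        exact hcon2
    have h5 := ETK.box (Icc 1 n) k (fun i j => z m j * (b : ℝ) ^ i) N hNd T hT0.le hT α β h0 h1 h2
    rw [Nat.card_Icc, Nat.add_sub_cancel] at h5
    refine h5.trans ?_
    have h6 : Real.sqrt N ≤ T := by
      rw [Real.sqrt_eq_rpow, hTd]
      exact Real.rpow_le_rpow_of_exponent_le hNR (by linarith)
    have h7 : (N : ℝ) ^ (1 / 2 + δ) = T * (N : ℝ) ^ (δ / 2) := by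
      rw [hTd, ← Real.rpow_add hN0]
      congr 1
      ring
    rw [h7]
    have h8 := mul_le_mul_of_nonneg_left hNc hT0.le
    refine le_trans ?_ h8
    have h9 : (n : ℝ) * (3 ^ k * (2 / √(N : ℝ))) ≤ 2 * 3 ^ k * T := by
      have h10 : (n : ℝ) * (2 / √(N : ℝ)) ≤ 2 * T := by
        have hsq0 : 0 < √(N : ℝ) := Real.sqrt_pos.2 hN0
        rw [mul_div_assoc', div_le_iff₀ hsq0]
        have h11 : (n : ℝ) ≤ N := by exact_mod_cast hn
        have h12 : √(N : ℝ) * √(N : ℝ) = N := Real.mul_self_sqrt hN0.le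
        nlinarith
      calc (n : ℝ) * (3 ^ k * (2 / √(N : ℝ))) = 3 ^ k * ((n : ℝ) * (2 / √(N : ℝ))) := by ring
        _ ≤ 3 ^ k * (2 * T) := by gcongr
        _ = _ := by ring
    have hk0 : (0 : ℝ) ≤ (k : ℝ) + 1 := by positivity
    calc ((k : ℝ) + 1) * (n * (3 ^ k * (2 / √(N : ℝ))) + (5 + 2 * Real.log N) ^ k * T) ≤
          ((k : ℝ) + 1) * (2 * 3 ^ k * T + (5 + 2 * Real.log N) ^ k * T) := by gcongr
      _ = _ := by ring
  have hsum := wunion S _ (filter_subset _ _) I Ex (fun i => filter_subset _ _) c hc hsub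
  have hcard : (I.card : ℝ) ≤ B * ((3 * N) ^ k * (N + 1)) := by
    rw [hI, card_product, card_product, Nat.card_Icc, card_range]
    push_cast
    gcongr
    exact_mod_cast (by omega : B + 1 - 2 ≤ B)
  have hq : 0 ≤ W * C / N ^ (A + k + 3) := by positivity
  have hUc : ∑ i ∈ I, ∑ m ∈ Ex i, c m ≤ B * ((3 * N) ^ k * (N + 1)) * (W * C / N ^ (A + k + 3)) := by
    refine (sum_le_sum hEc).trans ?_
    rw [sum_const, nsmul_eq_mul]
    exact mul_le_mul_of_nonneg_right hcard hq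
  have h1 : (B : ℝ) * ((3 * N) ^ k * (N + 1)) * (W * C / N ^ (A + k + 3)) * N ^ A =
      W * (3 ^ k * B * C * (N + 1) / N ^ 3) := by
    have hNne : (N : ℝ) ≠ 0 := hN0.ne'
    rw [mul_pow, pow_add, pow_add]
    field_simp
  have h2 : (3 : ℝ) ^ k * B * C * (N + 1) / N ^ 3 ≤ 1 := by
    rw [div_le_one (by positivity)]
    have h3 : 2 * 3 ^ k * (B : ℝ) * C ≤ N := by exact_mod_cast hNe
    have h4 : (0 : ℝ) ≤ 3 ^ k * B * C := by positivity
    have h5 : (3 : ℝ) ^ k * B * C * (N + 1) ≤ N * N := by nlinarith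
    have h6 : (N : ℝ) * N ≤ N ^ 3 := by nlinarith [mul_pos hN0 hN0]
    linarith
  calc _ ≤ (B : ℝ) * ((3 * N) ^ k * (N + 1)) * (W * C / N ^ (A + k + 3)) * N ^ A :=
        mul_le_mul_of_nonneg_right (hsum.trans hUc) (by positivity)
    _ = W * (3 ^ k * B * C * (N + 1) / N ^ 3) := h1
    _ ≤ W * 1 := mul_le_mul_of_nonneg_left h2 hW0
    _ = W := mul_one _

end Pool.Agent.V5helper26.PM
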