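import Mathlib
import Pool.Agent.V5helper26.PM.Exp
import Pool.Agent.V5helper26.PM.Joint

/-!
# Joint distribution of values of polynomials at integers and primes
-/

set_option autoImplicit false

namespace Pool.Agent.V5helper26.PM

open Finset Filter Topology Polynomial
open Pool.Agent.H807R2.Dav (ee norm_ee)
open Pool.Agent.H469R2.NK (e norm_e e_add e_zero conj_e)

/-- `z` is not jointly equidistributed up to the `N`-th digit in some base `b ≤ B` -/
def BadJ (B N : ℕ) (δ : ℝ) {k : ℕ} (z : Fin k → ℝ) : Prop :=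
  ¬ ∀ b : ℕ, 2 ≤ b → b ≤ B → JDisc b N ((N : ℝ) ^ (1 / 2 + δ)) z

/-- admissible leading coefficients: rational multiples of `x` of small height -/
def Adm (x κ : ℝ) (N d : ℕ) (P : ℝ[X]) : Prop :=
  1 ≤ P.natDegree ∧ P.natDegree ≤ d ∧ ∃ (u : ℤ) (v : ℕ), u ≠ 0 ∧ |(u : ℝ)| ≤ Real.exp (κ * N) ∧
    1 ≤ v ∧ (v : ℝ) ≤ Real.exp (κ * N) ∧ P.leadingCoeff = u / v * x

lemma Adm.taylor {x κ : ℝ} {N d : ℕ} {P : ℝ[X]} (h : Adm x κ N d P) (r : ℝ) :
    Adm x κ N d (taylor r P) := by
  obtain ⟨h1, h2, u, v, h3, h4, h5, h6, h7⟩ := h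
  refine ⟨by rwa [natDegree_taylor], by rwa [natDegree_taylor], u, v, h3, h4, h5, h6, ?_⟩
  rw [← h7, leadingCoeff, natDegree_taylor, coeff_taylor_natDegree]

/-- all nontrivial combinations of the `P j` with integer coefficients at most `N` are admissible -/
def AdmJ (x κ : ℝ) (N d : ℕ) {k : ℕ} (P : Fin k → ℝ[X]) : Prop :=
  ∀ g : Fin k → ℤ, g ≠ 0 → (∀ j, |g j| ≤ N) → Adm x κ N d (∑ j, C (g j : ℝ) * P j)

lemma AdmJ.taylor {x κ : ℝ} {N d k : ℕ} {P : Fin k → ℝ[X]} (h : AdmJ x κ N d P) (r : ℝ) :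
    AdmJ x κ N d (fun j => Polynomial.taylor r (P j)) := by
  intro g hg0 hgN
  have h1 := (h g hg0 hgN).taylor r
  have e1 : Polynomial.taylor r (∑ j, C (g j : ℝ) * P j) =
      ∑ j, C (g j : ℝ) * Polynomial.taylor r (P j) := by
    rw [map_sum]
    refine sum_congr rfl fun j _ => ?_
    rw [taylor_mul, taylor_C]
  rw [e1] at h1
  exact h1

lemma pi_lower : ∀ᶠ X : ℕ in atTop, (X : ℝ) / 2 ≤ (Nat.primeCounting X : ℝ) * Real.log X := by
  have h1 := evlog 6 1
  filter_upwards [evlog 12 1, eventually_ge_atTop 20] with X hX hX20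
  have hX20R : (20 : ℝ) ≤ X := by exact_mod_cast hX20
  rw [pow_one] at hX
  have hlog : 0 < Real.log X := Real.log_pos (by linarith)
  have h2 := Chebyshev.pi_ge X
  rw [div_le_iff₀ hlog] at h2
  refine le_trans ?_ h2
  have h3 : Real.log ((X : ℝ) + 1) ≤ Real.log X + 1 := by
    have : Real.log ((X : ℝ) + 1) ≤ Real.log (X * 2) := Real.log_le_log (by linarith) (by linarith)
    rw [Real.log_mul (by linarith) (by norm_num)] at this
    have := Real.log_two_lt_d9
    linarith
  have h4 := Real.log_two_gt_d9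
  nlinarith

open Classical in
/-- **The number of the exceptional integers and primes.** -/
theorem count_joint (x : ℝ) (hx : IsAlgebraic ℚ x) (hirr : Irrational x) (B d k A : ℕ) (ε δ : ℝ)
    (hε : 0 < ε) (hδ : 0 < δ) :
    ∃ κ : ℝ, 0 < κ ∧ ∃ N₀ : ℕ, ∀ N : ℕ, N₀ ≤ N → ∀ P : Fin k → ℝ[X], AdmJ x κ N d P →
      ∀ X : ℕ, Real.exp (ε * N) ≤ X →
        (((range X).filter (fun m : ℕ => BadJ B N δ (fun j => (P j).eval (m : ℝ)))).card : ℝ) *
          (N : ℝ) ^ A ≤ X ∧
        (((Icc 1 X).filter (fun p : ℕ => p.Prime ∧ BadJ B N δ (fun j => (P j).eval (p : ℝ)))).card : ℝ) *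
          (N : ℝ) ^ A ≤ Nat.primeCounting X := by
  obtain ⟨s, hs, N1, hmain⟩ := main_joint k B δ hδ (A + 1)
  obtain ⟨κ, hκ, N2, hexp⟩ := expsum x hx hirr B d s hs ε hε
  set C₀ : ℝ := Real.log 4 + 4 with hC₀
  have hlog4 : 0 ≤ Real.log 4 := Real.log_nonneg (by norm_num)
  have hC₀1 : 1 ≤ C₀ := by linarith
  set η : ℝ := max 1 (1 / ε) with hη
  have hη1 : 1 ≤ η := le_max_left _ _
  obtain ⟨X₁, hX₁⟩ := eventually_atTop.1 (evlog ((4 * η ^ A) ^ 2) (2 * (A + 1)))
  obtain ⟨X₂, hX₂⟩ := eventually_atTop.1 pi_lower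
  have hlarge : ∀ᶠ N : ℕ in atTop, (max (max (X₁ : ℝ) X₂) 3 ≤ Real.exp (ε * N)) := by
    have t2 : Tendsto (fun N : ℕ => ε * (N : ℝ)) atTop atTop :=
      tendsto_natCast_atTop_atTop.const_mul_atTop hε
    exact (Real.tendsto_exp_atTop.comp t2).eventually_ge_atTop _
  obtain ⟨N3, hN3⟩ := eventually_atTop.1 hlarge
  refine ⟨κ, hκ, max (max N1 N2) (max N3 (max 1 ⌈8 * C₀⌉₊)), fun N hN P hP X hX => ?_⟩
  have a1 : N1 ≤ N := ((le_max_left _ _).trans (le_max_left _ _)).trans hN
  have a2 : N2 ≤ N := ((le_max_right _ _).trans (le_max_left _ _)).trans hN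
  have a3 : N3 ≤ N := ((le_max_left _ _).trans (le_max_right _ _)).trans hN
  have a4 : 1 ≤ N := (((le_max_left _ _).trans (le_max_right _ _)).trans (le_max_right _ _)).trans hN
  have a5 : 8 * C₀ ≤ N := (Nat.le_ceil _).trans
    (Nat.cast_le.2 ((((le_max_right _ _).trans (le_max_right _ _)).trans (le_max_right _ _)).trans hN))
  have hN1R : (1 : ℝ) ≤ N := by exact_mod_cast a4
  have hN0R : (0 : ℝ) < N := by linarith
  have hexpN := hN3 N a3
  have hX₁X : X₁ ≤ X := by
    have : (X₁ : ℝ) ≤ X := ((le_max_left _ _).trans (le_max_left _ _)).trans (hexpN.trans hX)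
    exact_mod_cast this
  have hX₂X : X₂ ≤ X := by
    have : (X₂ : ℝ) ≤ X := ((le_max_right _ _).trans (le_max_left _ _)).trans (hexpN.trans hX)
    exact_mod_cast this
  have hX3 : (3 : ℝ) ≤ X := (le_max_right _ _).trans (hexpN.trans hX)
  have hX0 : (0 : ℝ) < X := by linarith
  have hE : ∀ b : ℕ, 2 ≤ b → b ≤ B → ∀ g : Fin k → ℤ, g ≠ 0 → (∀ j, |g j| ≤ N) →
      ∀ p : Fin (2 * s) → ℕ, (∀ j, p j ≤ N) → KK b p ≠ 0 →
      ‖∑ m ∈ range X, ee (KK b p * ∑ j, (g j : ℝ) * (P j).eval (m : ℝ))‖ ≤ X / (N : ℝ) ^ s ∧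
        ‖∑ n ∈ Icc 1 X, ((ArithmeticFunction.vonMangoldt n : ℝ) : ℂ) *
          ee (KK b p * ∑ j, (g j : ℝ) * (P j).eval (n : ℝ))‖ ≤ X / (N : ℝ) ^ s := by
    intro b hb2 hbB g hg0 hgN p hp hK
    obtain ⟨hP1, hPd, u, v, hu0, hu, hv1, hv, hlead⟩ := hP g hg0 hgN
    have h1 := hexp N a2 b hb2 hbB 1 le_rfl a4 p hp hK _ hP1 hPd u hu0 hu v hv1 hv hlead X hX
    have e1 : ∀ t : ℝ, ((1 : ℕ) : ℝ) * KK b p * (∑ j, C (g j : ℝ) * P j).eval t =
        KK b p * ∑ j, (g j : ℝ) * (P j).eval t := by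
      intro t
      rw [Nat.cast_one, one_mul, eval_finset_sum]
      congr 1
      refine sum_congr rfl fun j _ => ?_
      rw [eval_mul, eval_C]
    simp_rw [e1] at h1
    exact h1
  constructor
  · have h1 := hmain N a1 (range X) (fun _ => (1 : ℝ)) (fun (m : ℕ) j => (P j).eval (m : ℝ))
      (fun _ _ => zero_le_one) X (by simp) (by
        intro b hb2 hbB g hg0 hgN p hp hK
        have h2 := (hE b hb2 hbB g hg0 hgN p hp hK).1
        refine le_trans (le_of_eq ?_) h2
        congr 1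
        refine sum_congr rfl fun m _ => ?_
        rw [Complex.ofReal_one, one_mul, e_eq_ee])
    rw [sum_const, nsmul_eq_mul, mul_one] at h1
    have h2 : (N : ℝ) ^ A ≤ (N : ℝ) ^ (A + 1) := pow_le_pow_right₀ hN1R (by omega)
    have e0 : (range X).filter (fun m : ℕ => BadJ B N δ (fun j => (P j).eval (m : ℝ))) =
        (range X).filter (fun m : ℕ => ¬ ∀ b : ℕ, 2 ≤ b → b ≤ B →
          JDisc b N ((N : ℝ) ^ (1 / 2 + δ)) (fun j => (P j).eval (m : ℝ))) := by
      ext m
      rw [mem_filter, mem_filter]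
      rfl
    rw [e0]
    exact (mul_le_mul_of_nonneg_left h2 (Nat.cast_nonneg _)).trans h1
  · have hpsi : ∑ n ∈ Icc 1 X, (ArithmeticFunction.vonMangoldt n : ℝ) ≤ C₀ * X := by
      have h1 := Chebyshev.psi_le_const_mul_self hX0.le
      rw [Chebyshev.psi, Nat.floor_natCast] at h1
      refine le_trans (le_of_eq ?_) h1
      apply sum_congr _ fun _ _ => rfl
      ext n; rw [mem_Icc, mem_Ioc]; omega
    have h1 := hmain N a1 (Icc 1 X) (fun n => ArithmeticFunction.vonMangoldt n)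
      (fun (m : ℕ) j => (P j).eval (m : ℝ)) (fun _ _ => ArithmeticFunction.vonMangoldt_nonneg)
      (C₀ * X) hpsi (by
        intro b hb2 hbB g hg0 hgN p hp hK
        have h2 := (hE b hb2 hbB g hg0 hgN p hp hK).2
        refine le_trans (le_of_eq ?_) (h2.trans ?_)
        · congr 1
          refine sum_congr rfl fun m _ => ?_
          rw [e_eq_ee]
        · gcongr
          exact le_mul_of_one_le_left hX0.le hC₀1)
    -- primes
    set S := (Icc 1 X).filter (fun p : ℕ => p.Prime ∧ BadJ B N δ (fun j => (P j).eval (p : ℝ))) with hS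
    set S' := S.filter (fun p : ℕ => (X : ℝ) < (p : ℝ) ^ 2) with hS'
    have hlogX : 1 ≤ Real.log X := by
      rw [← Real.log_exp 1]
      apply Real.log_le_log (Real.exp_pos _)
      have := Real.exp_one_lt_d9
      linarith
    have hcard : (S.card : ℝ) ≤ √X + S'.card := by
      have h2 : S ⊆ (Icc 1 ⌊√(X : ℝ)⌋₊) ∪ S' := by
        intro p hp
        rw [mem_union]
        by_cases hp2 : (X : ℝ) < (p : ℝ) ^ 2
        · exact Or.inr (mem_filter.2 ⟨hp, hp2⟩)
        · push Not at hp2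
          left
          rw [hS, mem_filter, mem_Icc] at hp
          exact mem_Icc.2 ⟨hp.1.1, Nat.le_floor (Real.le_sqrt_of_sq_le hp2)⟩
      have h3 := (card_le_card h2).trans (card_union_le _ _)
      rw [Nat.card_Icc, Nat.add_sub_cancel] at h3
      have h4 : (S.card : ℝ) ≤ (⌊√(X : ℝ)⌋₊ : ℝ) + S'.card := by exact_mod_cast h3
      have h5 := Nat.floor_le (Real.sqrt_nonneg (X : ℝ))
      linarith
    have hS'w : (S'.card : ℝ) * (Real.log X / 2) ≤
        ∑ m ∈ (Icc 1 X).filter (fun m : ℕ => ¬ ∀ b : ℕ, 2 ≤ b → b ≤ B →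
          JDisc b N ((N : ℝ) ^ (1 / 2 + δ)) (fun j => (P j).eval (m : ℝ))), (ArithmeticFunction.vonMangoldt m : ℝ) := by
      calc (S'.card : ℝ) * (Real.log X / 2) = ∑ _p ∈ S', Real.log X / 2 := by
            rw [sum_const, nsmul_eq_mul]
        _ ≤ ∑ p ∈ S', (ArithmeticFunction.vonMangoldt p : ℝ) := by
            refine sum_le_sum fun p hp => ?_
            rw [hS', mem_filter, hS, mem_filter, mem_Icc] at hp
            rw [ArithmeticFunction.vonMangoldt_apply_prime hp.1.2.1]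
            have := Real.log_le_log hX0 hp.2.le
            rw [Real.log_pow] at this
            push_cast at this
            linarith
        _ ≤ _ := by
            apply sum_le_sum_of_subset_of_nonneg
            · intro p hp
              rw [hS', mem_filter, hS, mem_filter] at hp
              exact mem_filter.2 ⟨hp.1.1, hp.1.2.2⟩
            · intro p _ _
              exact ArithmeticFunction.vonMangoldt_nonneg
    have h2 : (S'.card : ℝ) * (Real.log X / 2) * (N : ℝ) ^ (A + 1) ≤ C₀ * X :=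
      (mul_le_mul_of_nonneg_right hS'w (by positivity)).trans h1
    have h3 : (S'.card : ℝ) * (N : ℝ) ^ A * Real.log X ≤ X / 4 := by
      have h4 : (S'.card : ℝ) * (N : ℝ) ^ A * Real.log X * N ≤ X / 4 * N := by
        calc (S'.card : ℝ) * (N : ℝ) ^ A * Real.log X * N =
              2 * ((S'.card : ℝ) * (Real.log X / 2) * (N : ℝ) ^ (A + 1)) := by rw [pow_succ]; ring
          _ ≤ 2 * (C₀ * X) := by linarith
          _ ≤ _ := by nlinarith
      exact le_of_mul_le_mul_right h4 hN0R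
    have h4 : √(X : ℝ) * (N : ℝ) ^ A * Real.log X ≤ X / 4 := by
      have hNlog : (N : ℝ) ≤ η * Real.log X := by
        have h1 := Real.log_le_log (Real.exp_pos _) hX
        rw [Real.log_exp] at h1
        have h2 : (N : ℝ) ≤ 1 / ε * Real.log X := by
          rw [one_div, inv_mul_eq_div, le_div_iff₀ hε]
          linarith
        refine h2.trans ?_
        apply mul_le_mul_of_nonneg_right (le_max_right _ _) (by linarith)
      have h5 : 4 * (η ^ A * (Real.log X) ^ (A + 1)) ≤ √X := by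
        apply Real.le_sqrt_of_sq_le
        refine le_trans (le_of_eq ?_) (hX₁ X hX₁X)
        rw [pow_mul']
        ring
      have h6 : (N : ℝ) ^ A * Real.log X ≤ η ^ A * (Real.log X) ^ (A + 1) := by
        calc (N : ℝ) ^ A * Real.log X ≤ (η * Real.log X) ^ A * Real.log X := by gcongr
          _ = _ := by rw [mul_pow, pow_succ]; ring
      have h7 : √(X : ℝ) * √(X : ℝ) = X := Real.mul_self_sqrt hX0.le
      calc √(X : ℝ) * (N : ℝ) ^ A * Real.log X = √(X : ℝ) * ((N : ℝ) ^ A * Real.log X) := by ring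
        _ ≤ √(X : ℝ) * (√(X : ℝ) / 4) := by
            apply mul_le_mul_of_nonneg_left _ (Real.sqrt_nonneg _)
            linarith
        _ = X / 4 := by rw [← mul_div_assoc, h7]
    have h5 := hX₂ X hX₂X
    have h6 : (S.card : ℝ) * (N : ℝ) ^ A * Real.log X ≤ Nat.primeCounting X * Real.log X := by
      calc (S.card : ℝ) * (N : ℝ) ^ A * Real.log X ≤ (√X + S'.card) * (N : ℝ) ^ A * Real.log X := by
            gcongr
        _ = √(X : ℝ) * (N : ℝ) ^ A * Real.log X + (S'.card : ℝ) * (N : ℝ) ^ A * Real.log X := by ring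
        _ ≤ X / 2 := by linarith
        _ ≤ _ := h5
    exact le_of_mul_le_mul_right h6 (by linarith)

end Pool.Agent.V5helper26.PM
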