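import Mathlib
import Pool.Agent.V5helper26.PM.MainJ

/-!
# Final form of the theorem on prime multiples
-/

set_option autoImplicit false

namespace Pool.Agent.V5helper26.PM

open Finset Filter Topology Polynomial

/-- simultaneous version for a family of tuples -/
theorem family (x : ℝ) (hx : IsAlgebraic ℚ x) (hirr : Irrational x) (B d k A : ℕ) (ε δ : ℝ)
    (hε : 0 < ε) (hδ : 0 < δ) :
    ∃ κ : ℝ, 0 < κ ∧ ∃ N₀ : ℕ, ∀ N : ℕ, N₀ ≤ N → ∀ 𝓕 : Finset (Fin k → ℝ[X]),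
      (𝓕.card : ℝ) ≤ (N : ℝ) ^ A → (∀ P ∈ 𝓕, AdmJ x κ N d P) →
      (∀ X : ℕ, Real.exp (ε * N) ≤ X →
        (({p : ℕ | p.Prime ∧ p ≤ X ∧ ¬ ∀ P ∈ 𝓕, ∀ b : ℕ, 2 ≤ b → b ≤ B →
          JDisc b N ((N : ℝ) ^ (1 / 2 + δ)) (fun j => (P j).eval (p : ℝ))}.ncard : ℕ) : ℝ) ≤
            Nat.primeCounting X / (N : ℝ) ^ A) ∧
      (∀ (J : ℤ) (M : ℕ), Real.exp (ε * N) ≤ M →
        (({m : ℤ | J ≤ m ∧ m < J + M ∧ ¬ ∀ P ∈ 𝓕, ∀ b : ℕ, 2 ≤ b → b ≤ B →
          JDisc b N ((N : ℝ) ^ (1 / 2 + δ)) (fun j => (P j).eval (m : ℝ))}.ncard : ℕ) : ℝ) ≤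
            M / (N : ℝ) ^ A) := by
  classical
  obtain ⟨κ, hκ, N1, h⟩ := count_joint x hx hirr B d k (A + A) ε δ hε hδ
  refine ⟨κ, hκ, max N1 1, fun N hN 𝓕 hcard h𝓕 => ?_⟩
  have a1 : N1 ≤ N := (le_max_left _ _).trans hN
  have a2 : 1 ≤ N := (le_max_right _ _).trans hN
  have hN1 : (1 : ℝ) ≤ N := by exact_mod_cast a2
  have hN0 : (0 : ℝ) < N := by linarith
  have hNA : (0 : ℝ) < (N : ℝ) ^ A := by positivity
  constructor
  · intro X hX
    set Bd : (Fin k → ℝ[X]) → Finset ℕ := fun P => (Icc 1 X).filter (fun p : ℕ => p.Prime ∧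
      BadJ B N δ (fun j => (P j).eval (p : ℝ))) with hBd
    have h1 : ∀ P ∈ 𝓕, ((Bd P).card : ℝ) ≤ Nat.primeCounting X / ((N : ℝ) ^ A * (N : ℝ) ^ A) := by
      intro P hP
      have h2 := (h N a1 P (h𝓕 P hP) X hX).2
      rw [le_div_iff₀ (by positivity), ← pow_add]
      refine le_trans (le_of_eq ?_) h2
      congr 2
      try rw [hBd]
    have h3 : {p : ℕ | p.Prime ∧ p ≤ X ∧ ¬ ∀ P ∈ 𝓕, ∀ b : ℕ, 2 ≤ b → b ≤ B →
          JDisc b N ((N : ℝ) ^ (1 / 2 + δ)) (fun j => (P j).eval (p : ℝ))} ⊆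
        ((𝓕.biUnion Bd : Finset ℕ) : Set ℕ) := by
      rintro p ⟨hp, hpX, hbad⟩
      push Not at hbad
      obtain ⟨P, hP, b, hb2, hbB, hJ⟩ := hbad
      rw [mem_coe, mem_biUnion]
      refine ⟨P, hP, ?_⟩
      rw [hBd, mem_filter, mem_Icc]
      exact ⟨⟨hp.one_lt.le, hpX⟩, hp, fun hall => hJ (hall b hb2 hbB)⟩
    have h4 := Set.ncard_le_ncard h3 (finite_toSet _)
    rw [Set.ncard_coe_finset] at h4
    have h5 : (({p : ℕ | p.Prime ∧ p ≤ X ∧ ¬ ∀ P ∈ 𝓕, ∀ b : ℕ, 2 ≤ b → b ≤ B →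
          JDisc b N ((N : ℝ) ^ (1 / 2 + δ)) (fun j => (P j).eval (p : ℝ))}.ncard : ℕ) : ℝ) ≤
        ∑ P ∈ 𝓕, ((Bd P).card : ℝ) := by
      exact_mod_cast h4.trans card_biUnion_le
    refine h5.trans ((sum_le_sum h1).trans ?_)
    rw [sum_const, nsmul_eq_mul]
    have h6 : 0 ≤ (Nat.primeCounting X : ℝ) / ((N : ℝ) ^ A * (N : ℝ) ^ A) := by positivity
    calc (𝓕.card : ℝ) * ((Nat.primeCounting X : ℝ) / ((N : ℝ) ^ A * (N : ℝ) ^ A)) ≤
          (N : ℝ) ^ A * ((Nat.primeCounting X : ℝ) / ((N : ℝ) ^ A * (N : ℝ) ^ A)) :=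
          mul_le_mul_of_nonneg_right hcard h6
      _ = _ := by field_simp
  · intro J M hM
    set Bd : (Fin k → ℝ[X]) → Finset ℕ := fun P => (range M).filter (fun m : ℕ =>
      BadJ B N δ (fun j => (Polynomial.taylor (J : ℝ) (P j)).eval (m : ℝ))) with hBd
    have h1 : ∀ P ∈ 𝓕, ((Bd P).card : ℝ) ≤ M / ((N : ℝ) ^ A * (N : ℝ) ^ A) := by
      intro P hP
      have h2 := (h N a1 (fun j => Polynomial.taylor (J : ℝ) (P j)) ((h𝓕 P hP).taylor J) M hM).1
      rw [le_div_iff₀ (by positivity), ← pow_add]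
      refine le_trans (le_of_eq ?_) h2
      congr 2
      try rw [hBd]
    have h3 : {m : ℤ | J ≤ m ∧ m < J + M ∧ ¬ ∀ P ∈ 𝓕, ∀ b : ℕ, 2 ≤ b → b ≤ B →
          JDisc b N ((N : ℝ) ^ (1 / 2 + δ)) (fun j => (P j).eval (m : ℝ))} ⊆
        (fun m : ℕ => (m : ℤ) + J) '' ((𝓕.biUnion Bd : Finset ℕ) : Set ℕ) := by
      rintro m ⟨hm1, hm2, hbad⟩
      push Not at hbad
      obtain ⟨P, hP, b, hb2, hbB, hJ⟩ := hbad
      have e0 : (((m - J).toNat : ℕ) : ℤ) = m - J := Int.toNat_of_nonneg (by omega)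
      refine ⟨(m - J).toNat, ?_, ?_⟩
      · rw [mem_coe, mem_biUnion]
        refine ⟨P, hP, ?_⟩
        rw [hBd, mem_filter, mem_range]
        refine ⟨by omega, fun hall => hJ ?_⟩
        have h6 := hall b hb2 hbB
        have e1 : (fun j => (Polynomial.taylor (J : ℝ) (P j)).eval (((m - J).toNat : ℕ) : ℝ)) =
            fun j => (P j).eval (m : ℝ) := by
          funext j
          rw [taylor_eval]
          congr 1
          have e2 : (((m - J).toNat : ℕ) : ℝ) = ((m - J : ℤ) : ℝ) := by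
            rw [← e0]; push_cast; rfl
          rw [e2]; push_cast; ring
        rw [e1] at h6
        exact h6
      · simp only
        rw [e0]; ring
    have h4 := (Set.ncard_le_ncard h3 ((finite_toSet _).image _)).trans
      (Set.ncard_image_le (finite_toSet _))
    rw [Set.ncard_coe_finset] at h4
    have h5 : (({m : ℤ | J ≤ m ∧ m < J + M ∧ ¬ ∀ P ∈ 𝓕, ∀ b : ℕ, 2 ≤ b → b ≤ B →
          JDisc b N ((N : ℝ) ^ (1 / 2 + δ)) (fun j => (P j).eval (m : ℝ))}.ncard : ℕ) : ℝ) ≤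
        ∑ P ∈ 𝓕, ((Bd P).card : ℝ) := by
      exact_mod_cast h4.trans card_biUnion_le
    refine h5.trans ((sum_le_sum h1).trans ?_)
    rw [sum_const, nsmul_eq_mul]
    have h6 : 0 ≤ (M : ℝ) / ((N : ℝ) ^ A * (N : ℝ) ^ A) := by positivity
    calc (𝓕.card : ℝ) * ((M : ℝ) / ((N : ℝ) ^ A * (N : ℝ) ^ A)) ≤
          (N : ℝ) ^ A * ((M : ℝ) / ((N : ℝ) ^ A * (N : ℝ) ^ A)) :=
          mul_le_mul_of_nonneg_right hcard h6
      _ = _ := by field_simp

/-- integer polynomials -/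
theorem intpoly (x : ℝ) (hx : IsAlgebraic ℚ x) (hirr : Irrational x) (B k A : ℕ) (ε δ : ℝ)
    (hε : 0 < ε) (hδ : 0 < δ) (h : Fin k → ℤ[X])
    (hind : ∀ g : Fin k → ℤ, g ≠ 0 → 1 ≤ (∑ j, C (g j) * h j).natDegree) :
    ∃ N₀ : ℕ, ∀ N : ℕ, N₀ ≤ N → ∀ (y : Fin k → ℝ) (X : ℕ), Real.exp (ε * N) ≤ X →
        (({p : ℕ | p.Prime ∧ p ≤ X ∧ ¬ ∀ b : ℕ, 2 ≤ b → b ≤ B →
          JDisc b N ((N : ℝ) ^ (1 / 2 + δ))
            (fun j => y j + (((h j).eval (p : ℤ) : ℤ) : ℝ) * x)}.ncard : ℕ) : ℝ) ≤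
            Nat.primeCounting X / (N : ℝ) ^ A := by
  classical
  set d : ℕ := ∑ j, (h j).natDegree with hd
  set H : ℕ := ∑ j, ∑ i ∈ range (d + 1), ((h j).coeff i).natAbs with hH
  obtain ⟨κ, hκ, N1, hmain⟩ := family x hx hirr B d k A ε δ hε hδ
  have hev : ∀ᶠ N : ℕ in atTop, (N : ℝ) ^ 1 ≤ Real.exp (κ / 2 * N) ∧ (H : ℝ) + 1 ≤ Real.exp (κ / 2 * N) := by
    have t1 : Tendsto (fun N : ℕ => κ / 2 * (N : ℝ)) atTop atTop :=
      tendsto_natCast_atTop_atTop.const_mul_atTop (by positivity)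
    filter_upwards [ev_pow_le_exp 1 (κ / 2) (by positivity),
      (Real.tendsto_exp_atTop.comp t1).eventually_ge_atTop ((H : ℝ) + 1)] with N h1 h2
    exact ⟨h1, h2⟩
  obtain ⟨N2, hN2⟩ := eventually_atTop.1 hev
  refine ⟨max (max N1 N2) 1, fun N hN y X hX => ?_⟩
  have a1 : N1 ≤ N := ((le_max_left _ _).trans (le_max_left _ _)).trans hN
  have a2 : N2 ≤ N := ((le_max_right _ _).trans (le_max_left _ _)).trans hN
  have a3 : 1 ≤ N := (le_max_right _ _).trans hN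
  have hN1 : (1 : ℝ) ≤ N := by exact_mod_cast a3
  obtain ⟨g1, g2⟩ := hN2 N a2
  rw [pow_one] at g1
  set P : Fin k → ℝ[X] := fun j => C (y j) + C x * (h j).map (Int.castRingHom ℝ) with hP
  have heval : ∀ (p : ℕ) (j : Fin k), (P j).eval (p : ℝ) = y j + (((h j).eval (p : ℤ) : ℤ) : ℝ) * x := by
    intro p j
    rw [hP]
    simp only
    rw [eval_add, eval_mul, eval_C, eval_C]
    have : ((h j).map (Int.castRingHom ℝ)).eval (p : ℝ) = (((h j).eval (p : ℤ) : ℤ) : ℝ) := by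
      have h1 := Polynomial.eval_intCast_map (Int.castRingHom ℝ) (h j) (p : ℤ)
      rw [Int.cast_natCast] at h1
      rw [h1]; rfl
    rw [this]; ring
  have hx0 : x ≠ 0 := hirr.ne_zero
  have hadm : AdmJ x κ N d P := by
    intro g hg0 hgN
    set q : ℤ[X] := ∑ j, C (g j) * h j with hq
    have hq1 : 1 ≤ q.natDegree := hind g hg0
    have hqd : q.natDegree ≤ d := by
      refine natDegree_sum_le_of_forall_le _ _ fun j _ => ?_
      refine (natDegree_C_mul_le _ _).trans ?_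
      exact single_le_sum (f := fun j => (h j).natDegree) (fun _ _ => Nat.zero_le _) (mem_univ j)
    have e1 : ∑ j, C (g j : ℝ) * P j = C (∑ j, (g j : ℝ) * y j) + C x * q.map (Int.castRingHom ℝ) := by
      rw [hq, Polynomial.map_sum, mul_sum, map_sum, ← sum_add_distrib]
      refine sum_congr rfl fun j _ => ?_
      rw [hP, Polynomial.map_mul, Polynomial.map_C, map_mul, eq_intCast (Int.castRingHom ℝ)]
      ring
    have hinj : Function.Injective (Int.castRingHom ℝ) := Int.cast_injective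
    have e2 : (q.map (Int.castRingHom ℝ)).natDegree = q.natDegree := natDegree_map_eq_of_injective hinj q
    have e3 : (C x * q.map (Int.castRingHom ℝ)).natDegree = q.natDegree := by
      rw [natDegree_C_mul hx0, e2]
    have e4 : (∑ j, C (g j : ℝ) * P j).natDegree = q.natDegree := by
      rw [e1, natDegree_C_add, e3]
    have e5 : (∑ j, C (g j : ℝ) * P j).leadingCoeff = (q.leadingCoeff : ℝ) * x := by
      rw [leadingCoeff, e4, e1, coeff_add, coeff_C, if_neg (by omega), zero_add, coeff_C_mul, coeff_map,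
        leadingCoeff, eq_intCast, mul_comm]
    refine ⟨by rw [e4]; exact hq1, by rw [e4]; exact hqd, q.leadingCoeff, 1, ?_, ?_, le_rfl, ?_, ?_⟩
    · intro h0
      rw [leadingCoeff_eq_zero] at h0
      rw [h0, natDegree_zero] at hq1
      omega
    · have h1 : |(q.leadingCoeff : ℝ)| ≤ N * H := by
        rw [leadingCoeff, hq, finset_sum_coeff]
        push_cast
        refine (abs_sum_le_sum_abs _ _).trans ?_
        rw [hH]
        push_cast
        rw [mul_sum]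
        refine sum_le_sum fun j _ => ?_
        rw [coeff_C_mul]
        push_cast
        rw [abs_mul]
        have h2 : |(g j : ℝ)| ≤ N := by
          have := hgN j
          exact_mod_cast this
        refine mul_le_mul h2 ?_ (abs_nonneg _) (by linarith)
        rw [← hq]
        have h3 := single_le_sum (f := fun i => |((h j).coeff i : ℝ)|) (fun _ _ => abs_nonneg _)
          (mem_range.2 (Nat.lt_succ_of_le hqd))
        refine h3.trans (le_of_eq ?_)
        refine sum_congr rfl fun i _ => ?_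
        rw [Nat.cast_natAbs]
        push_cast
        rfl
      refine h1.trans ?_
      have e6 : Real.exp (κ * N) = Real.exp (κ / 2 * N) * Real.exp (κ / 2 * N) := by
        rw [← Real.exp_add]; congr 1; ring
      rw [e6]
      exact mul_le_mul g1 (by linarith) (Nat.cast_nonneg _) (Real.exp_pos _).le
    · push_cast
      exact Real.one_le_exp (by positivity)
    · rw [e5]; push_cast; ring
  have h1 := (hmain N a1 {P} (by
    rw [card_singleton, Nat.cast_one]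
    exact one_le_pow₀ hN1) (by
    intro Q hQ
    rw [mem_singleton] at hQ
    rw [hQ]
    exact hadm)).1 X hX
  refine le_trans (le_of_eq ?_) h1
  congr 2
  ext p
  simp only [Set.mem_setOf_eq, mem_singleton, forall_eq]
  simp_rw [heval]

end Pool.Agent.V5helper26.PM
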